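import Pool.Agent.MP_08482e_nt.H68.Defs

attribute [-instance] LieAdmissibleAlgebra.toModule RightPreLieAlgebra.toModule
  LeftPreLieAlgebra.toModule LieAlgebra.toModule littleWedderburn
  MulRingSeminormClass.toMonoidWithZeroHomClass NormedSpace.toModule
  NonUnitalAlgSemiHomClass.toDistribMulActionSemiHomClass instCoeHTCTOfCoeHTC
  DivisionSemiring.toSemiring instNonUnitalAlgHomClassOfNonUnitalAlgEquivClass
  MonoidHomClass.toMulHomClass MonTypeEquivalenceMon.monMonoid RKHS.instFunLike
  instNontrivialOfCharZero NonUnitalAlgHomClass.instLinearMapClass IdemSemiring.toSemiring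
  BialgEquivClass.toBialgHomClass AddQuantale.instAddLeftMono
  ContinuousSemilinearMapClass.toSemilinearMapClass Semifield.toCommSemiring
  Action.FintypeCat.instMulActionObjFiniteOf GrpTypeEquivalenceGrp.grpGroup DivisionRing.toRing
  NonUnitalRingHomClass.toMulHomClass IdemCommSemiring.toCommSemiring LieRing.toAddCommGroup
  NormedCommRing.toCommRing CoalgHomClass.toSemilinearMapClass BialgHomClass.toAlgHomClass
  MulSemiringActionSemiHomClass.toDistribMulActionSemiHomClass
  MulSemiringActionSemiHomClass.toRingHomClass NonUnitalNormedCommRing.toNonUnitalCommRing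
  IsDomain.toNontrivial NonUnitalRing.toNonUnitalNonAssocRing ESeminormedCommMonoid.toCommMonoid
  AddQuantale.instAddRightMono LieAdmissibleRing.toNonUnitalNonAssocRing
  NonUnitalAlgHomClass.instSemilinearMapClassOfNonUnitalAlgSemiHomClassToMonoidHomRingHom

/-! Noncommutative polynomials in the letters `b k`, the coproducts dual to the quasi-shuffle
products, derivations and the duality. -/

namespace Pool.Agent.MP_08482e_nt.H68

open TensorProduct Finset

noncomputable section

variable {R : Type} [CommRing R]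

abbrev A (R : Type) [CommRing R] : Type := FreeAlgebra R ℕ

def b (k : ℕ) : A R := FreeAlgebra.ι R k
def wd (w : List ℕ) : A R := (w.map b).prod

@[simp] theorem wd_nil : (wd [] : A R) = 1 := rfl
@[simp] theorem wd_cons (a : ℕ) (w : List ℕ) : (wd (a :: w) : A R) = b a * wd w := by simp [wd]
@[simp] theorem wd_append (u v : List ℕ) : (wd (u ++ v) : A R) = wd u * wd v := by simp [wd]
@[simp] theorem wd_replicate (m a : ℕ) : (wd (List.replicate m a) : A R) = b a ^ m := by simp [wd]

def bas : Module.Basis (List ℕ) R (A R) :=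
  (FreeAlgebra.basisFreeMonoid R ℕ).reindex FreeMonoid.toList

theorem bas_apply (w : List ℕ) : (bas w : A R) = wd w := by
  have : ∀ w : List ℕ, FreeAlgebra.equivMonoidAlgebraFreeMonoid (wd w : A R) =
      MonoidAlgebra.single (FreeMonoid.ofList w) 1 := fun w => by
    induction w with
    | nil => simp; rfl
    | cons a w ih =>
      rw [wd_cons, map_mul, ih, FreeMonoid.ofList_cons, ← one_mul (1 : R),
        ← MonoidAlgebra.single_mul_single, one_mul]
      simp [b, FreeAlgebra.equivMonoidAlgebraFreeMonoid]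
  simp [bas, FreeAlgebra.basisFreeMonoid, AlgEquiv.symm_apply_eq, this]

section
variable {V : Type} [AddCommGroup V] [Module R V]

/-- The linear map with given values on words. -/
def lin (f : List ℕ → V) : A R →ₗ[R] V := bas.constr R f

@[simp] theorem lin_wd (f : List ℕ → V) (w : List ℕ) : lin f (wd w : A R) = f w := by
  rw [← bas_apply, lin, Module.Basis.constr_basis]

theorem lin_ext {f g : A R →ₗ[R] V} (h : ∀ w, f (wd w) = g (wd w)) : f = g :=
  bas.ext fun w => by rw [bas_apply, h]

theorem lin_ext' {f g : A R →ₗ[R] V} (h : ∀ w, f (wd w) = g (wd w)) (x : A R) : f x = g x := by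
  rw [lin_ext h]

end

/-- The span of the words with a property. -/
def Sp (p : List ℕ → Prop) : Submodule R (A R) := Submodule.span R {x | ∃ w, p w ∧ x = wd w}

theorem Sp_wd {p : List ℕ → Prop} {w : List ℕ} (h : p w) : (wd w : A R) ∈ Sp p :=
  Submodule.subset_span ⟨w, h, rfl⟩

theorem Sp_map {V : Type} [AddCommGroup V] [Module R V] {p : List ℕ → Prop} (L : A R →ₗ[R] V)
    (S : Submodule R V) (h : ∀ w, p w → L (wd w) ∈ S) {x : A R} (hx : x ∈ Sp p) : L x ∈ S := by
  have : Sp p ≤ S.comap L := Submodule.span_le.2 (by rintro _ ⟨w, hw, rfl⟩; exact h w hw)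
  exact this hx

theorem Sp_top (x : A R) : x ∈ Sp fun _ => True := by
  refine Submodule.span_mono ?_ (bas.mem_span x)
  rintro _ ⟨w, rfl⟩
  exact ⟨w, trivial, bas_apply w⟩

theorem map_all {V : Type} [AddCommGroup V] [Module R V] (L : A R →ₗ[R] V)
    (S : Submodule R V) (h : ∀ w, L (wd w) ∈ S) (x : A R) : L x ∈ S :=
  Sp_map L S (fun w _ => h w) (Sp_top x)

theorem Sp_eq {V : Type} [AddCommGroup V] [Module R V] {p : List ℕ → Prop} {L L' : A R →ₗ[R] V}
    (h : ∀ w, p w → L (wd w) = L' (wd w)) {x : A R} (hx : x ∈ Sp p) : L x = L' x :=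
  sub_eq_zero.1 (Sp_map (L - L') ⊥ (fun w hw => by simp [h w hw]) hx)

theorem Sp_mono {p q : List ℕ → Prop} (h : ∀ w, p w → q w) {x : A R} (hx : x ∈ Sp p) : x ∈ Sp q :=
  Sp_map LinearMap.id _ (fun w hw => Sp_wd (h w hw)) hx

theorem Sp_mul {p q r : List ℕ → Prop} (h : ∀ u v, p u → q v → r (u ++ v)) {x y : A R}
    (hx : x ∈ Sp p) (hy : y ∈ Sp q) : x * y ∈ Sp r :=
  Sp_map (LinearMap.mulRight R y) _ (fun u hu => Sp_map (LinearMap.mulLeft R (wd u)) _
    (fun v hv => by simpa using Sp_wd (R := R) (h u v hu hv)) hy) hx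

/-- The coefficient of a word. -/
def co (w : List ℕ) : A R →ₗ[R] R := lin fun v => if v = w then 1 else 0

theorem co_wd (w v : List ℕ) : co w (wd v : A R) = if v = w then 1 else 0 := lin_wd _ _

theorem co_Sp {p : List ℕ → Prop} {w : List ℕ} (h : ¬p w) {x : A R} (hx : x ∈ Sp p) : co w x = 0 :=
  Sp_map (co w) ⊥ (fun v hv => by rw [co_wd, if_neg (by rintro rfl; exact h hv)]; simp only [zero_mem]) hx

theorem co_eq (w : List ℕ) : (co w : A R →ₗ[R] R) = bas.coord w := lin_ext fun v => by
  rw [co_wd, ← bas_apply]; simp [Finsupp.single_apply]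

theorem co_ext {x y : A R} (h : ∀ w, co w x = co w y) : x = y :=
  bas.ext_elem fun w => by simpa [co_eq] using h w

theorem co_one (w : List ℕ) : co w (1 : A R) = if w = [] then 1 else 0 := by
  rw [← wd_nil, co_wd]; simp [eq_comm]

@[simp] theorem co_nil_b (a : ℕ) (x : A R) : co [] (b a * x) = 0 :=
  lin_ext' (f := co [] ∘ₗ LinearMap.mulLeft R (b a)) (g := 0)
    (fun w => by simp [← wd_cons, co_wd]) x

@[simp] theorem co_cons_b (k a : ℕ) (w : List ℕ) (x : A R) :
    co (k :: w) (b a * x) = if a = k then co w x else 0 :=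
  lin_ext' (f := co (k :: w) ∘ₗ LinearMap.mulLeft R (b a)) (g := if a = k then co w else 0)
    (fun v => by by_cases h : a = k <;> simp [← wd_cons, co_wd, h]) x |>.trans
    (by split_ifs <;> rfl)

theorem co_nil_mul (x y : A R) : co [] (x * y) = co [] x * co [] y :=
  lin_ext' (f := co [] ∘ₗ LinearMap.mulRight R y) (g := LinearMap.mulRight R (co [] y) ∘ₗ co [])
    (fun w => by cases w <;> simp only [wd_nil, LinearMap.coe_comp, Function.comp_apply, LinearMap.mulRight_apply, one_mul, co_one, ↓ reduceIte, wd_cons, mul_assoc, co_nil_b, zero_mul]) x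

/-- The algebra map with given values on letters. -/
def hom {B : Type} [Ring B] [Algebra R B] (f : ℕ → B) : A R →ₐ[R] B := FreeAlgebra.lift R f

@[simp] theorem hom_b {B : Type} [Ring B] [Algebra R B] (f : ℕ → B) (k : ℕ) :
    hom f (b k : A R) = f k := FreeAlgebra.lift_ι_apply _ _

theorem hom_ext {B : Type} [Ring B] [Algebra R B] {f g : A R →ₐ[R] B} (h : ∀ k, f (b k) = g (b k)) :
    f = g := FreeAlgebra.hom_ext (funext h)

theorem hom_Sp {B : Type} [Ring B] [Algebra R B] {f g : A R →ₐ[R] B} {p : ℕ → Prop}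
    (h : ∀ k, p k → f (b k) = g (b k)) {x : A R} (hx : x ∈ Sp fun w => ∀ k ∈ w, p k) : f x = g x :=
  Sp_eq (L := f.toLinearMap) (L' := g.toLinearMap) (fun w hw => by
    induction w with
    | nil => simp
    | cons a w ih =>
      simp only [List.mem_cons, forall_eq_or_imp] at hw
      simpa only [wd_cons, AlgHom.toLinearMap_apply, map_mul, h a hw.1] using congrArg (g (b a) * ·) (ih hw.2)) hx

def derW (f : ℕ → A R) : List ℕ → A R
  | [] => 0
  | a :: w => f a * wd w + b a * derW f w

/-- The derivation with given values on letters. -/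
def der (f : ℕ → A R) : Module.End R (A R) := lin (derW f)

@[simp] theorem der_one (f : ℕ → A R) : der f 1 = 0 := lin_wd _ []

theorem der_mul (f : ℕ → A R) (x y : A R) : der f (x * y) = der f x * y + x * der f y := by
  refine lin_ext' (f := der f ∘ₗ LinearMap.mulRight R y)
    (g := LinearMap.mulRight R y ∘ₗ der f + LinearMap.mulRight R (der f y)) (fun u => ?_) x
  refine lin_ext' (f := der f ∘ₗ LinearMap.mulLeft R (wd u))
    (g := LinearMap.mulLeft R (der f (wd u)) + LinearMap.mulLeft R (wd u) ∘ₗ der f) (fun v => ?_) y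
  simp only [LinearMap.comp_apply, LinearMap.mulLeft_apply, LinearMap.add_apply, ← wd_append, der,
    lin_wd]
  induction u with
  | nil => simp [derW]
  | cons a u ih => simp only [List.cons_append, derW, wd_append, ih, wd_cons]; noncomm_ring

@[simp] theorem der_b (f : ℕ → A R) (k : ℕ) : der f (b k) = f k := by
  simpa [derW, der] using lin_wd (R := R) (derW f) [k]

theorem tw_ext {B : Type} [Ring B] [Algebra R B] (φ : A R → B) {D : A R →ₗ[R] B} {p : ℕ → Prop}
    (h1 : φ 1 = 1) (h : ∀ x y, D (x * y) = D x * φ y + φ x * D y) (h0 : ∀ k, p k → D (b k) = 0)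
    {x : A R} (hx : x ∈ Sp fun w => ∀ k ∈ w, p k) : D x = 0 :=
  Sp_eq (L' := 0) (fun w hw => by
    induction w with
    | nil => simpa only [wd_nil, LinearMap.zero_apply, mul_one, h1, one_mul, left_eq_add] using h 1 1
    | cons a w ih =>
      simp only [List.mem_cons, forall_eq_or_imp] at hw
      simpa only [wd_cons, h, h0 a hw.1, zero_mul, zero_add, LinearMap.zero_apply, mul_zero] using congrArg (φ (b a) * ·) (ih hw.2)) hx

theorem Sp_all (x : A R) : x ∈ Sp fun w => ∀ k ∈ w, True := Sp_mono (by simp) (Sp_top x)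

theorem der_zero {f : ℕ → A R} {p : ℕ → Prop} (h0 : ∀ k, p k → f k = 0) {x : A R}
    (hx : x ∈ Sp fun w => ∀ k ∈ w, p k) : der f x = 0 :=
  tw_ext id rfl (der_mul f) (by simpa using h0) hx

/-! ### Coproducts -/

def cc (h : R) (a c : ℕ) : R := if a = 0 ∨ c = 0 then h else 1

def cop (h : R) : A R →ₐ[R] A R ⊗[R] A R :=
  hom fun k => b k ⊗ₜ 1 + 1 ⊗ₜ b k + ∑ p ∈ antidiagonal k, cc h p.1 p.2 • (b p.1 ⊗ₜ b p.2)

def st (h : R) : List ℕ → List ℕ → A R
  | [], v => wd v
  | a :: u, [] => wd (a :: u)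
  | a :: u, c :: v => b a * st h u (c :: v) + b c * st h (a :: u) v + cc h a c • (b (a + c) * st h u v)

@[simp] theorem st_nil (h : R) (v : List ℕ) : st h [] v = wd v := by rw [st]
@[simp] theorem st_nil' (h : R) (u : List ℕ) : st h u [] = wd u := by cases u <;> rw [st]

/-- The coefficient of a pair of words. -/
def co2 (u v : List ℕ) : A R ⊗[R] A R →ₗ[R] R := LinearMap.mul' R R ∘ₗ TensorProduct.map (co u) (co v)

@[simp] theorem co2_tmul (u v : List ℕ) (x y : A R) : co2 u v (x ⊗ₜ y) = co u x * co v y := by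
  simp [co2]

theorem co2_ext {z z' : A R ⊗[R] A R} (h : ∀ u v, co2 u v z = co2 u v z') : z = z' :=
  (bas.tensorProduct bas).ext_elem fun p => by
    have : ∀ z, (bas.tensorProduct bas).repr z p = co2 (R := R) p.1 p.2 z := fun z => by
      induction z with
      | zero => simp
      | add x y a c => simp [a, c]
      | tmul x y => rw [Module.Basis.tensorProduct_repr_tmul_apply, co2_tmul, co_eq, co_eq]; simp [mul_comm]
    rw [this, this, h]

/-- The pairing for which the words are orthonormal. -/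
def pr : A R →ₗ[R] A R →ₗ[R] R := lin co

theorem pr_wd (w : List ℕ) (x : A R) : pr (wd w) x = co w x := by rw [pr, lin_wd]

theorem pr_wd' (w : List ℕ) (x : A R) : pr x (wd w) = co w x :=
  lin_ext' (f := pr.flip (wd w)) (g := co w) (fun v => by simp [pr_wd, co_wd, eq_comm]) x

theorem co_st (h : R) (w u v : List ℕ) : co w (st h u v) = co2 u v (cop h (wd w)) := by
  induction w generalizing u v with
  | nil =>
    rw [wd_nil, map_one, Algebra.TensorProduct.one_def, co2_tmul]
    rcases u with _ | ⟨a, u⟩ <;> rcases v with _ | ⟨c, v⟩ <;> simp [st, co_one]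
  | cons k w ih =>
    have e : ∀ z, co2 u v (cop h (b k) * z) = co2 u v ((b k ⊗ₜ 1) * z) + co2 u v ((1 ⊗ₜ b k) * z) +
        ∑ p ∈ antidiagonal k, cc h p.1 p.2 * co2 u v ((b p.1 ⊗ₜ b p.2) * z) := fun z => by
      simp only [cop, hom_b, add_mul, sum_mul, map_add, map_sum, smul_mul_assoc, map_smul, smul_eq_mul]
    have e1 : ∀ (z : A R ⊗[R] A R) i a u v, co2 (a :: u) v ((b i ⊗ₜ 1) * z) =
        if i = a then co2 u v z else 0 := fun z i a u v => by
      induction z with
      | zero => simp only [mul_zero, map_zero, ite_self]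
      | add x y a c => simp only [mul_add, map_add, a, c]; split_ifs <;> simp
      | tmul x y => simp
    have e2 : ∀ (z : A R ⊗[R] A R) i a u v, co2 u (a :: v) ((1 ⊗ₜ b i) * z) =
        if i = a then co2 u v z else 0 := fun z i a u v => by
      induction z with
      | zero => simp only [mul_zero, map_zero, ite_self]
      | add x y a c => simp only [mul_add, map_add, a, c]; split_ifs <;> simp
      | tmul x y => simp
    have e3 : ∀ (z : A R ⊗[R] A R) i (y : A R) v, co2 [] v ((b i ⊗ₜ y) * z) = 0 := fun z i y v => by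
      induction z with
      | zero => simp only [mul_zero, map_zero]
      | add x y a c => simp [mul_add, a, c]
      | tmul x y => simp only [Algebra.TensorProduct.tmul_mul_tmul, co2_tmul, co_nil_b, zero_mul]
    have e4 : ∀ (z : A R ⊗[R] A R) i (y : A R) v, co2 v [] ((y ⊗ₜ b i) * z) = 0 := fun z i y v => by
      induction z with
      | zero => simp
      | add x y a c => simp [mul_add, a, c]
      | tmul x y => simp
    have e5 : ∀ (z : A R ⊗[R] A R) i j, (b i ⊗ₜ b j : A R ⊗[R] A R) * z = (b i ⊗ₜ 1) * ((1 ⊗ₜ b j) * z) :=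
      fun z i j => by simp [← mul_assoc]
    rw [wd_cons, map_mul, e]
    rcases u with _ | ⟨a, u⟩ <;> rcases v with _ | ⟨c, v⟩
    · simp [e3, e4, co_one]
    · simp [e2, e3, ← ih, eq_comm]
    · simp [e1, e4, ← ih, eq_comm]
    · simp only [e5, e1, e2, ← ih, st, map_add, map_smul, co_cons_b, smul_eq_mul, eq_comm (a := k)]
      congr 1
      by_cases hk : a + c = k
      · rw [sum_eq_single (a, c) (fun p _ ne => ?_) (by simp only [HasAntidiagonal.mem_antidiagonal, hk, not_true_eq_false, ↓ reduceIte, IsEmpty.forall_iff])]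
        · simp [hk]
        · by_cases h1 : p.1 = a <;> by_cases h2 : p.2 = c <;> simp_all [Prod.ext_iff]
      · rw [if_neg hk, mul_zero, sum_eq_zero fun p hp => ?_]
        by_cases h1 : p.1 = a <;> by_cases h2 : p.2 = c <;> simp_all

theorem pr_st (h : R) (u v : List ℕ) (x : A R) : pr x (st h u v) = co2 u v (cop h x) :=
  lin_ext' (f := pr.flip (st h u v)) (g := co2 u v ∘ₗ (cop h).toLinearMap)
    (fun w => by simp [pr_wd, co_st]) x

def bb (k : ℕ) : A R := if k = 0 then 1 else b k

@[simp] theorem bb_zero : (bb 0 : A R) = 1 := rfl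
@[simp] theorem bb_succ (k : ℕ) : (bb (k + 1) : A R) = b (k + 1) := rfl

theorem cop_b (h : R) (k : ℕ) : cop h (b k) =
    b k ⊗ₜ 1 + 1 ⊗ₜ b k + ∑ p ∈ antidiagonal k, cc h p.1 p.2 • (b p.1 ⊗ₜ b p.2) := hom_b _ _

theorem sum_cc {V : Type} [AddCommGroup V] [Module R V] (h : R) (k : ℕ) (f g : ℕ → ℕ → V)
    (e : ∀ i j, f (i + 1) (j + 1) = g (i + 1) (j + 1)) :
    ∑ p ∈ antidiagonal (k + 1), g p.1 p.2 + h • f 0 (k + 1) + h • f (k + 1) 0 =
      g 0 (k + 1) + g (k + 1) 0 + ∑ p ∈ antidiagonal (k + 1), cc h p.1 p.2 • f p.1 p.2 := by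
  rw [Finset.Nat.sum_antidiagonal_succ, Finset.Nat.sum_antidiagonal_succ]
  cases k with
  | zero => simp only [zero_add, HasAntidiagonal.antidiagonal_zero, sum_singleton, cc, one_ne_zero, or_false, ↓ reduceIte, Nat.add_eq_zero_iff, and_false, false_or, ite_smul, one_smul]; abel
  | succ k =>
    rw [Finset.Nat.sum_antidiagonal_succ', Finset.Nat.sum_antidiagonal_succ']
    simp only [cc, Nat.add_eq_zero_iff, one_ne_zero, and_false, and_self, or_false, ↓ reduceIte, or_true, or_self, e, one_smul]; abel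

theorem cop_bb (k : ℕ) :
    cop 0 (bb k : A R) = ∑ p ∈ antidiagonal k, bb p.1 ⊗ₜ bb p.2 := by
  cases k with
  | zero => simp [Algebra.TensorProduct.one_def]
  | succ k =>
    have := sum_cc (0 : R) k (fun i j => (b i ⊗ₜ b j : A R ⊗[R] A R)) (fun i j => bb i ⊗ₜ bb j)
      fun _ _ => rfl
    simp only [zero_smul, add_zero, bb_zero, bb_succ] at this
    rw [this, bb_succ, cop_b, add_comm (b _ ⊗ₜ _)]

/-- Primitive elements. -/
def Prim (x : A R) : Prop := cop 0 x = x ⊗ₜ 1 + 1 ⊗ₜ x

/-- Group-like elements. -/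
def Grp (x : A R) : Prop := cop 0 x = x ⊗ₜ x

theorem prim_b0 : Prim (b 0 : A R) := by simp [Prim, cop_b, cc]
theorem prim_b1 : Prim (b 1 : A R) := by simp only [Prim, cop_b, Nat.antidiagonal_succ, zero_add, HasAntidiagonal.antidiagonal_zero, map_singleton, Function.Embedding.coe_prodMap, Function.Embedding.coeFn_mk, Prod.map_apply, Nat.succ_eq_add_one, Function.Embedding.refl_apply, cons_eq_insert, cc, ite_smul, zero_smul, one_smul, mem_singleton, Prod.mk.injEq, zero_ne_one, one_ne_zero, and_self, not_false_eq_true, sum_insert, or_false, ↓ reduceIte, sum_singleton, or_true, add_zero]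

theorem Grp.mul {x y : A R} (hx : Grp x) (hy : Grp y) : Grp (x * y) := by
  rw [Grp, map_mul, hx, hy, Algebra.TensorProduct.tmul_mul_tmul]

theorem Grp.inv {x y : A R} (hx : Grp x) (h : x * y = 1) (h' : y * x = 1) : Grp y := by
  have e : (y ⊗ₜ y) * cop 0 x = 1 := by
    rw [hx, Algebra.TensorProduct.tmul_mul_tmul, h', Algebra.TensorProduct.one_def]
  rw [Grp, ← one_mul (cop 0 y), ← e, mul_assoc, ← map_mul, h, map_one, mul_one]

/-! ### The duality -/

def tl : List ℕ → ℕ → List ℕ
  | [], m => [m + 1]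
  | 0 :: w, m => tl w (m + 1)
  | (k + 1) :: w, m => tl w 0 ++ List.replicate k 0 ++ [m + 1]

def tw : List ℕ → List ℕ
  | [] => []
  | 0 :: _ => []
  | (a + 1) :: w => tl w 0 ++ List.replicate a 0

theorem tl_replicate (m : ℕ) (w : List ℕ) (i : ℕ) : tl (List.replicate m 0 ++ w) i = tl w (i + m) := by
  induction m generalizing i with
  | zero => rfl
  | succ m ih => rw [List.replicate_succ, List.cons_append, tl, ih]; congr 1; omega

theorem tl_append (u : List ℕ) (a : ℕ) (v : List ℕ) (i : ℕ) :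
    tl (u ++ (a + 1) :: v) i = tl v 0 ++ List.replicate a 0 ++ tl u i := by
  induction u generalizing i with
  | nil => simp [tl]
  | cons k u ih => cases k <;> simp [tl, ih]

@[simp] theorem word_nil : word [] = [] := rfl
@[simp] theorem word_cons (p : ℕ × ℕ) (l : List (ℕ × ℕ)) :
    word (p :: l) = (p.1 + 1) :: (List.replicate p.2 0 ++ word l) := by simp [word]
theorem word_append (l m : List (ℕ × ℕ)) : word (l ++ m) = word l ++ word m := by simp [word]
@[simp] theorem dual_nil : dual [] = [] := rfl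
theorem dual_cons (p : ℕ × ℕ) (l : List (ℕ × ℕ)) : dual (p :: l) = dual l ++ [p.swap] := by
  simp [dual]
@[simp] theorem dual_dual (l : List (ℕ × ℕ)) : dual (dual l) = l := by
  simp [dual, Function.comp_def]

theorem tl_word (l : List (ℕ × ℕ)) (i : ℕ) : tl (word l) i = word (dual l) ++ [i + 1] := by
  induction l generalizing i with
  | nil => rfl
  | cons p l ih => simp [tl, tl_replicate, ih, dual_cons, word_append]

theorem tw_word (l : List (ℕ × ℕ)) : tw (word l) = word (dual l) := by
  cases l with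
  | nil => rfl
  | cons p l => simp [tw, tl_replicate, tl_word, dual_cons, word_append]

theorem parse (w : List ℕ) : ∃ m l, w = List.replicate m 0 ++ word l := by
  induction w with
  | nil => exact ⟨0, [], rfl⟩
  | cons a w ih =>
    obtain ⟨m, l, rfl⟩ := ih
    cases a with
    | zero => exact ⟨m + 1, l, rfl⟩
    | succ a => exact ⟨0, (a, m) :: l, by simp⟩

theorem parse' (w : List ℕ) : (∃ l, w = word l) ∨ ∃ v, w = 0 :: v := by
  obtain ⟨m, l, rfl⟩ := parse w
  cases m with
  | zero => exact Or.inl ⟨l, rfl⟩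
  | succ m => exact Or.inr ⟨_, rfl⟩

theorem word_ne (l : List (ℕ × ℕ)) (v : List ℕ) : 0 :: v ≠ word l := by cases l <;> simp

/-- The words that begin with `0`. -/
def JJ : Submodule R (A R) := Sp fun w => ∃ v, w = 0 :: v

/-- The words that do not begin with `0`. -/
def WW : Submodule R (A R) := Sp fun w => ∃ l, w = word l

theorem J_b (x : A R) : b 0 * x ∈ JJ :=
  map_all (LinearMap.mulLeft R (b 0)) _ (fun w => by
    rw [LinearMap.mulLeft_apply, ← wd_cons]; exact Sp_wd ⟨w, rfl⟩) x

theorem J_mul {x : A R} (hx : x ∈ JJ) (y : A R) : x * y ∈ JJ :=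
  Sp_mul (by rintro _ v ⟨u, rfl⟩ -; exact ⟨_, rfl⟩) hx (Sp_top y)

theorem W_mul {x y : A R} (hx : x ∈ WW) (hy : y ∈ WW) : x * y ∈ WW :=
  Sp_mul (by rintro _ _ ⟨u, rfl⟩ ⟨v, rfl⟩; exact ⟨_, (word_append _ _).symm⟩) hx hy

theorem W_one : (1 : A R) ∈ WW := Sp_wd (w := []) ⟨[], rfl⟩

theorem W_b (a : ℕ) (x : A R) : b (a + 1) * x ∈ WW :=
  map_all (LinearMap.mulLeft R (b (a + 1))) _ (fun w => by
    obtain ⟨m, l, rfl⟩ := parse w
    rw [LinearMap.mulLeft_apply, ← wd_cons]; exact Sp_wd ⟨(a, m) :: l, by simp⟩) x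

def TH : Module.End R (A R) := lin fun w => wd (tl w 0)
def T0 : Module.End R (A R) := lin fun w => if w.head? = some 0 then 0 else wd (tw w)

theorem TH_wd (w : List ℕ) : TH (wd w : A R) = wd (tl w 0) := lin_wd _ _

@[simp] theorem T0_one : T0 (1 : A R) = 1 := lin_wd _ []

theorem T0_word (l : List (ℕ × ℕ)) : T0 (wd (word l) : A R) = wd (word (dual l)) := by
  rw [T0, lin_wd, tw_word, if_neg (by cases l <;> simp)]

theorem T0_J {x : A R} (hx : x ∈ JJ) : T0 x = 0 :=
  Sp_eq (L' := 0) (by rintro _ ⟨v, rfl⟩; rw [T0, lin_wd]; simp) hx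

theorem T0_b (a : ℕ) (x : A R) : T0 (b (a + 1) * x) = TH x * b 0 ^ a :=
  lin_ext' (f := T0 ∘ₗ LinearMap.mulLeft R (b (a + 1))) (g := LinearMap.mulRight R (b 0 ^ a) ∘ₗ TH)
    (fun w => by simp [← wd_cons, T0, tw, TH_wd]) x

theorem TH_pow (m : ℕ) : TH (b 0 ^ m : A R) = b (m + 1) := by
  have := TH_wd (R := R) (List.replicate m 0 ++ [])
  rw [tl_replicate] at this
  simpa only [List.append_nil, wd_replicate, tl, zero_add, wd_cons, wd_nil, mul_one] using this

theorem T0_mul (x : A R) {z : A R} (hz : z ∈ WW) : T0 (x * z) = T0 z * T0 x := by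
  refine Sp_eq (L := T0 ∘ₗ LinearMap.mulLeft R x) (L' := LinearMap.mulRight R (T0 x) ∘ₗ T0) ?_ hz
  rintro _ ⟨l, rfl⟩
  refine lin_ext' (f := T0 ∘ₗ LinearMap.mulRight R (wd (word l)))
    (g := LinearMap.mulLeft R (T0 (wd (word l))) ∘ₗ T0) (fun w => ?_) x
  rcases parse' w with ⟨m, rfl⟩ | ⟨v, rfl⟩
  · simp [← wd_append, ← word_append, T0_word, dual]
  · simp [T0_J (J_b _), mul_assoc]

theorem TH_mul (x : A R) {z : A R} (hz : z ∈ WW) : TH (x * z) = T0 z * TH x := by
  have := T0_mul (b (0 + 1) * x) hz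
  rwa [mul_assoc, T0_b, T0_b, pow_zero, mul_one, mul_one] at this

theorem T0_mem (x : A R) : T0 x ∈ WW := map_all T0 _ (fun w => by
  rcases parse' w with ⟨m, rfl⟩ | ⟨v, rfl⟩
  · rw [T0_word]; exact Sp_wd ⟨_, rfl⟩
  · simp [T0_J (J_b _)]) x

theorem T0_T0 (x : A R) : T0 (T0 x) - x ∈ JJ := map_all (T0 ∘ₗ T0 - LinearMap.id) _ (fun w => by
  rcases parse' w with ⟨m, rfl⟩ | ⟨v, rfl⟩
  · simp [T0_word]
  · simp [T0_J (J_b _), J_b]) x

theorem co_J {x : A R} (hx : x ∈ JJ) (l : List (ℕ × ℕ)) : co (word l) x = 0 :=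
  co_Sp (by rintro ⟨v, h⟩; exact word_ne l v h.symm) hx

theorem co_T0 (l : List (ℕ × ℕ)) (x : A R) : co (word (dual l)) (T0 x) = co (word l) x :=
  lin_ext' (f := co (word (dual l)) ∘ₗ T0) (fun w => by
    rcases parse' w with ⟨m, rfl⟩ | ⟨v, rfl⟩
    · rw [LinearMap.comp_apply, T0_word, co_wd, co_wd]
      refine if_congr ⟨fun h => ?_, fun h => ?_⟩ rfl rfl
      · simpa [tw_word] using congrArg tw h
      · simpa [tw_word] using congrArg tw h
    · simp [T0_J (J_b _), co_J (J_b _)]) x


/-! ### Objects used for the comparison of the products -/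

/-- The words in the letters `0`, `1`. -/
def B01 : Submodule R (A R) := Sp fun w => ∀ k ∈ w, k ≤ 1

theorem B01_mul {x y : A R} (hx : x ∈ B01) (hy : y ∈ B01) : x * y ∈ B01 :=
  Sp_mul (fun u v hu hv k hk => (List.mem_append.1 hk).elim (hu k) (hv k)) hx hy

/-- The antipode of the shuffle coproduct. -/
def ap : Module.End R (A R) := lin fun w => (-1 : R) ^ w.length • wd w.reverse

@[simp] theorem ap_one : ap (1 : A R) = 1 := by
  simpa only [ap, wd_nil, List.length_nil, pow_zero, List.reverse_nil, one_smul] using lin_wd (R := R) (fun w => (-1 : R) ^ w.length • (wd w.reverse : A R)) []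

theorem ap_mul (x y : A R) : ap (x * y) = ap y * ap x := by
  refine lin_ext' (f := ap ∘ₗ LinearMap.mulRight R y) (g := LinearMap.mulLeft R (ap y) ∘ₗ ap)
    (fun u => ?_) x
  refine lin_ext' (f := ap ∘ₗ LinearMap.mulLeft R (wd u))
    (g := LinearMap.mulRight R (ap (wd u)) ∘ₗ ap) (fun v => ?_) y
  simp only [LinearMap.comp_apply, LinearMap.mulLeft_apply, LinearMap.mulRight_apply, ← wd_append, ap,
    lin_wd]
  simp only [List.length_append, pow_add, List.reverse_append, wd_append, Algebra.mul_smul_comm, Algebra.smul_mul_assoc, smul_smul]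

@[simp] theorem ap_b (k : ℕ) : ap (b k : A R) = -b k := by
  simpa only [ap, wd_cons, wd_nil, mul_one, List.length_cons, List.length_nil, zero_add, pow_one, List.reverse_cons, List.reverse_nil, List.nil_append, neg_smul, one_smul] using lin_wd (R := R) (fun w => (-1 : R) ^ w.length • (wd w.reverse : A R)) [k]

theorem ap_mem {x : A R} (hx : x ∈ B01) : ap x ∈ B01 :=
  Sp_map ap _ (fun w hw => by
    rw [ap, lin_wd]; exact Submodule.smul_mem _ _ (Sp_wd (by simpa only [List.mem_reverse] using hw))) hx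

theorem prim_le {k : ℕ} (h : k ≤ 1) : Prim (b k : A R) := by
  interval_cases k
  exacts [prim_b0, prim_b1]

theorem ap_grp {Y : A R} (hY : Y ∈ B01) (hg : Grp Y) (h1 : co [] Y = 1) :
    ap Y * Y = 1 ∧ Y * ap Y = 1 := by
  have e1 : ∀ (z : A R ⊗[R] A R) k, LinearMap.mul' R _ (ap.rTensor _ (z * (b k ⊗ₜ 1 + 1 ⊗ₜ b k))) =
      LinearMap.mul' R _ (ap.rTensor _ z) * b k - b k * LinearMap.mul' R _ (ap.rTensor _ z) := fun z k => by
    induction z with
    | zero => simp
    | add x y a c => rw [add_mul, map_add, map_add, a, c]; simp only [map_add, add_mul, mul_add]; abel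
    | tmul x y => simp [mul_add, ap_mul, mul_assoc]; abel
  have e2 : ∀ (z : A R ⊗[R] A R) k, LinearMap.mul' R _ (ap.lTensor _ ((b k ⊗ₜ 1 + 1 ⊗ₜ b k) * z)) =
      b k * LinearMap.mul' R _ (ap.lTensor _ z) - LinearMap.mul' R _ (ap.lTensor _ z) * b k := fun z k => by
    induction z with
    | zero => simp only [mul_zero, map_zero, zero_mul, sub_self]
    | add x y a c => rw [mul_add, map_add, map_add, a, c]; simp only [map_add, add_mul, mul_add]; abel
    | tmul x y => simp only [add_mul, Algebra.TensorProduct.tmul_mul_tmul, one_mul, map_add, LinearMap.lTensor_tmul, ap_mul, ap_b, mul_neg, LinearMap.mul'_apply, mul_assoc]; abel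
  have f1 := Sp_eq (L := LinearMap.mul' R _ ∘ₗ ap.rTensor _ ∘ₗ (cop 0).toLinearMap)
    (L' := Algebra.linearMap R (A R) ∘ₗ co []) (fun w hw => by
      induction w using List.reverseRecOn with
      | nil => simp [Algebra.TensorProduct.one_def, co_one]
      | append_singleton w k ih =>
        have := ih fun j hj => hw j (by simp [hj])
        simp only [LinearMap.comp_apply, AlgHom.toLinearMap_apply, Algebra.linearMap_apply] at this ⊢
        rw [wd_append, wd_cons, wd_nil, mul_one, map_mul, prim_le (hw k (by simp)), e1, this,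
          co_nil_mul, ← mul_one (b k), co_nil_b, Algebra.commutes]
        simp) hY
  have f2 := Sp_eq (L := LinearMap.mul' R _ ∘ₗ ap.lTensor _ ∘ₗ (cop 0).toLinearMap)
    (L' := Algebra.linearMap R (A R) ∘ₗ co []) (fun w hw => by
      induction w with
      | nil => simp [Algebra.TensorProduct.one_def, co_one]
      | cons k w ih =>
        have := ih fun j hj => hw j (by simp [hj])
        simp only [LinearMap.comp_apply, AlgHom.toLinearMap_apply, Algebra.linearMap_apply] at this ⊢
        rw [wd_cons, map_mul, prim_le (hw k (by simp)), e2, this, co_nil_b, Algebra.commutes]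
        simp) hY
  simp only [LinearMap.comp_apply, AlgHom.toLinearMap_apply, Algebra.linearMap_apply] at f1 f2
  rw [hg, h1] at f1 f2
  exact ⟨by simpa only [LinearMap.rTensor_tmul, LinearMap.mul'_apply, map_one] using f1, by simpa only [LinearMap.lTensor_tmul, LinearMap.mul'_apply, map_one] using f2⟩

def ThW {R' : Type} [CommRing R'] (ξ : R') : List ℕ → A R'
  | [] => 1
  | 0 :: w => ξ • ThW ξ w
  | (a + 1) :: w => wd (tl w 0 ++ List.replicate a 0)

/-- Leading zeros are replaced by the scalar `ξ`, and the duality is applied to the rest. -/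
def Th {R' : Type} [CommRing R'] [Algebra R R'] (ξ : R') : A R →ₗ[R] A R' := lin (ThW ξ)

open Polynomial in
/-- The polynomial `(exp (h X) - 1) / h` for `h ^ N = 0`. -/
def xi [Algebra ℚ R] (h : R) (N : ℕ) : R[X] :=
  ∑ i ∈ range N, C (h ^ i * algebraMap ℚ R (Nat.factorial (i + 1) : ℚ)⁻¹) * X ^ (i + 1)

open Polynomial in
def al [Algebra ℚ R] (h : R) (N k : ℕ) : R[X] := (1 + C h * xi h N) * xi h N ^ k

open Polynomial in
def uu [Algebra ℚ R] (h : R) (N : ℕ) (Y : A R) (k : ℕ) : A R := ap Y * aeval (b 0) (al h N k) * Y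

open Polynomial in
def Dt [Algebra ℚ R] (h : R) (N : ℕ) (Y : A R) (f g : R[X]) : ℕ → A R
  | 0 => 1
  | k + 1 => aeval (b 1) f * TH (uu h N Y k) * aeval (b 1) g

end

end Pool.Agent.MP_08482e_nt.H68
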