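import Mathlib

/-! Formal multiple q-zeta values: words in the letters `0, 1, 2, ...`, the quasi-shuffle product,
the duality, and the q-series attached to a word. -/

namespace Pool.Agent.MP_08482e_nt.H68

open Finsupp

/-- The quasi-shuffle (stuffle) product of two words. Two letters `a`, `c` merge to `a + c`, with
the factor `h` if one of them is `0`. -/
noncomputable def stuffle (h : ℚ) : List ℕ → List ℕ → (List ℕ →₀ ℚ)
  | [], v => single v 1
  | a :: u, [] => single (a :: u) 1
  | a :: u, c :: v => mapDomain (List.cons a) (stuffle h u (c :: v)) +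
      mapDomain (List.cons c) (stuffle h (a :: u) v) +
      (if a = 0 ∨ c = 0 then h else 1) • mapDomain (List.cons (a + c)) (stuffle h u v)

/-- The word with blocks `(a, m)`: the letter `a + 1` followed by `m` zeros. These are all the
words that do not begin with `0`. -/
def word (l : List (ℕ × ℕ)) : List ℕ := l.flatMap fun p => (p.1 + 1) :: List.replicate p.2 0

/-- The duality: reverse the blocks and exchange the two entries of each block. -/
def dual (l : List (ℕ × ℕ)) : List (ℕ × ℕ) := (l.map Prod.swap).reverse

/-- The ideal generated by the duality relations for the quasi-shuffle product. -/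
noncomputable def rel (h : ℚ) : Submodule ℚ (List ℕ →₀ ℚ) :=
  Submodule.span ℚ {x | ∃ l m, x = stuffle h (word l) (word m) - stuffle h (word (dual l)) (word m)}

/-- The series `q ^ n / (1 - q ^ n)`. -/
noncomputable def xq (n : ℕ) : PowerSeries ℚ := PowerSeries.mk fun d => if 0 < d ∧ n ∣ d then 1 else 0

/-- The sum of `xq n₁ ^ k₁ * ... * xq nᵣ ^ kᵣ` over `M ≥ n₁ > ... > nᵣ > 0`. -/
noncomputable def trunc : List ℕ → ℕ → PowerSeries ℚ
  | [], _ => 1
  | k :: w, M => ∑ n ∈ Finset.range M, xq (n + 1) ^ k * trunc w n

/-- The Schlesinger-Zudilin q-zeta value of a word, extended linearly; for a word that does not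
begin with `0` the coefficient of `q ^ d` only sees `n₁ ≤ d`. -/
noncomputable def zeta : (List ℕ →₀ ℚ) →ₗ[ℚ] PowerSeries ℚ :=
  linearCombination ℚ fun w => PowerSeries.mk fun d => PowerSeries.coeff d (trunc w d)

end Pool.Agent.MP_08482e_nt.H68
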