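import Pool.Agent.MP_08482e_nt.H68.Base

attribute [-instance] littleWedderburn LieAdmissibleAlgebra.toModule RightPreLieAlgebra.toModule
  LeftPreLieAlgebra.toModule LieAlgebra.toModule MonTypeEquivalenceMon.monMonoid
  ContinuousSemilinearMapClass.toSemilinearMapClass RKHS.instFunLike
  MulRingSeminormClass.toMonoidWithZeroHomClass instNonUnitalAlgHomClassOfNonUnitalAlgEquivClass
  BialgHomClass.toAlgHomClass CoalgHomClass.toSemilinearMapClass NormedSpace.toModule
  FreeAlgebra.instNontrivial NormedAlgebra.toAlgebra DivisionSemiring.toSemiring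
  LieRing.toAddCommGroup MulSemiringActionSemiHomClass.toDistribMulActionSemiHomClass
  instCoeHTCTOfCoeTailOfCoeHTC instCoeHTCOfCoeHeadOfCoeOTC Polynomial.charZero
  Fintype.decidableForallFintype Action.FintypeCat.instMulActionObjFiniteOf
  BialgHomClass.toMonoidHomClass instCoeOutOfCoeSort RingHomClass.toLinearMapClassNNRat
  IdemSemiring.toSemiring SemilinearIsometryClass.toSemilinearMapClass LieRingModule.toBracket
  NormedCommRing.toCommRing Semifield.toCommSemiring NonUnitalNormedCommRing.toNonUnitalCommRing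
  instCoeOTCOfCoeTC ValuationClass.toMonoidWithZeroHomClass CentroidHomClass.toAddMonoidHomClass
  TestFunctionClass.toDFunLike AlgEquivClass.toAlgHomClass instSMulCommClassOfIsScalarTower
  NormedField.toField GrpTypeEquivalenceGrp.grpGroup MonoidHomClass.toMulHomClass
  LieAdmissibleRing.toNonUnitalNonAssocRing AddQuantale.instAddRightMono
  IdemCommSemiring.toCommSemiring NonUnitalRing.toNonUnitalNonAssocRing
  RingHomClass.toLinearMapClassRat MulSemiringActionSemiHomClass.toRingHomClass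
  EuclideanDomain.toCommRing SeminormedCommRing.toCommRing
  NonUnitalSeminormedCommRing.toNonUnitalCommRing ContDiffMapSupportedInClass.toDFunLike
  NormedRing.toRing MulSemiringAction.toDistribMulAction IsScalarTower.of_algHom
  Int.instAddCommMonoid EquivLike.toFunLike LieRinehartAlgebra.toIsScalarTower
  AddQuantale.instAddLeftMono MulCharClass.toMonoidHomClass

/-! Coderivations, pairs of operators exchanged by the duality, and filtrations. -/

namespace Pool.Agent.MP_08482e_nt.H68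

open TensorProduct Finset LinearMap

noncomputable section

variable {R : Type} [CommRing R]

abbrev E (R : Type) [CommRing R] : Type := Module.End R (A R)

/-! ### Coderivations -/

def hat (s : E R) : Module.End R (A R ⊗[R] A R) := s.rTensor _ + s.lTensor _

@[simp] theorem hat_tmul (s : E R) (x y : A R) : hat s (x ⊗ₜ y) = s x ⊗ₜ y + x ⊗ₜ s y := by simp [hat]

def Cod (s : E R) : Prop := ∀ x, cop 0 (s x) = hat s (cop 0 x)

theorem Cod.sub {s u : E R} (hs : Cod s) (hu : Cod u) : Cod (s - u) := fun x => by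
  have : hat (s - u) = hat s - hat u := by
    ext x y; simp only [AlgebraTensorModule.curry_apply, restrictScalars_self, curry_apply, hat_tmul, LinearMap.sub_apply, sub_tmul, tmul_sub]; abel
  simp [this, hs x, hu x]

theorem Cod.lie {s u : E R} (hs : Cod s) (hu : Cod u) : Cod ⁅s, u⁆ := fun x => by
  have : hat ⁅s, u⁆ = ⁅hat s, hat u⁆ := by
    ext x y; simp only [Ring.lie_def, AlgebraTensorModule.curry_apply, restrictScalars_self, curry_apply, hat_tmul, LinearMap.sub_apply, Module.End.mul_apply, sub_tmul, tmul_sub, map_add]; abel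
  rw [this]; simp only [Ring.lie_def, LinearMap.sub_apply, Module.End.mul_apply, map_sub, hs _, hu _]

theorem cod_left {p : A R} (hp : Prim p) : Cod (mulLeft R p) := fun x => by
  rw [mulLeft_apply, map_mul, hp]
  induction cop 0 x with
  | zero => simp
  | add x y a c => rw [mul_add, map_add, a, c]
  | tmul x y => simp [add_mul]

theorem cod_right {p : A R} (hp : Prim p) : Cod (mulRight R p) := fun x => by
  rw [mulRight_apply, map_mul, hp]
  induction cop 0 x with
  | zero => simp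
  | add x y a c => rw [add_mul, map_add, a, c]
  | tmul x y => simp [mul_add]

theorem cod_der {f : ℕ → A R} (h : ∀ k, cop 0 (f k) = hat (der f) (cop 0 (b k))) : Cod (der f) := by
  have e : ∀ z w, hat (der f) (z * w) = hat (der f) z * w + z * hat (der f) w := fun z w => by
    induction z with
    | zero => simp
    | add x y a c => rw [add_mul, map_add, a, c, map_add]; noncomm_ring
    | tmul x y =>
      induction w with
      | zero => simp only [mul_zero, map_zero, hat_tmul, add_zero]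
      | add z w a c => rw [mul_add, map_add, a, c, map_add]; noncomm_ring
      | tmul z w => simp only [Algebra.TensorProduct.tmul_mul_tmul, hat_tmul, der_mul, add_tmul, tmul_add, add_mul, mul_add]; abel
  intro x
  exact sub_eq_zero.1 (tw_ext (cop 0) (D := (cop 0).toLinearMap ∘ₗ der f - hat (der f) ∘ₗ (cop 0).toLinearMap)
    (map_one _) (fun x y => by simp [der_mul, e, sub_mul, mul_sub]; abel) (fun k _ => by simp [h]) (Sp_all x))

theorem Cod.prim {s : E R} (hs : Cod s) : Prim (s 1) := by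
  simpa [Prim, Algebra.TensorProduct.one_def] using hs 1

theorem Prim.lie {x y : A R} (hx : Prim x) (hy : Prim y) : Prim (x * y - y * x) := by
  rw [Prim, map_sub, map_mul, map_mul, hx, hy]
  simp only [mul_add, add_mul, Algebra.TensorProduct.tmul_mul_tmul, mul_one, one_mul, sub_tmul, tmul_sub]; abel

/-! ### Duality -/

def Du (s s' : E R) : Prop :=
  (∀ x ∈ JJ, s x ∈ JJ) ∧ (∀ x ∈ JJ, s' x ∈ JJ) ∧ ∀ x, T0 (s x) - s' (T0 x) ∈ JJ

theorem Du.mul {s s' u u' : E R} (h : Du s s') (k : Du u u') : Du (s * u) (s' * u') :=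
  ⟨fun x hx => h.1 _ (k.1 x hx), fun x hx => h.2.1 _ (k.2.1 x hx), fun x => by
    simpa using add_mem (h.2.2 (u x)) (h.2.1 _ (k.2.2 x))⟩

theorem Du.sub {s s' u u' : E R} (h : Du s s') (k : Du u u') : Du (s - u) (s' - u') :=
  ⟨fun x hx => sub_mem (h.1 x hx) (k.1 x hx), fun x hx => sub_mem (h.2.1 x hx) (k.2.1 x hx),
    fun x => by convert sub_mem (h.2.2 x) (k.2.2 x) using 1; simp only [LinearMap.sub_apply, map_sub]; abel⟩

theorem Du.lie {s s' u u' : E R} (h : Du s s') (k : Du u u') : Du ⁅s, u⁆ ⁅s', u'⁆ :=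
  (h.mul k).sub (k.mul h)

theorem Du.symm {s s' : E R} (h : Du s s') : Du s' s := ⟨h.2.1, h.1, fun x => by
  have := T0_J (add_mem (h.2.2 (T0 x)) (h.2.1 _ (T0_T0 x)))
  simp only [map_sub, sub_add_sub_cancel, sub_eq_zero] at this
  rw [← this]; exact T0_T0 _⟩

theorem du_of {s s' : E R} (h : ∀ x, s (b 0 * x) ∈ JJ) (h' : ∀ x, s' (b 0 * x) ∈ JJ)
    (e : ∀ l, T0 (s (wd (word l))) - s' (wd (word (dual l))) ∈ JJ) : Du s s' :=
  ⟨fun _ => Sp_map s _ (by rintro _ ⟨v, rfl⟩; exact h _),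
    fun _ => Sp_map s' _ (by rintro _ ⟨v, rfl⟩; exact h' _),
    map_all (T0 ∘ₗ s - s' ∘ₗ T0) _ fun w => by
      rcases parse' w with ⟨l, rfl⟩ | ⟨v, rfl⟩
      · simpa [T0_word] using e l
      · simp only [wd_cons, LinearMap.sub_apply, coe_comp, Function.comp_apply, T0_J (h _), T0_J (J_b _), map_zero, sub_self, zero_mem]⟩

theorem W_word (l : List (ℕ × ℕ)) : (wd (word l) : A R) ∈ WW := Sp_wd ⟨l, rfl⟩

theorem wd_word (p : ℕ × ℕ) (l : List (ℕ × ℕ)) :
    (wd (word (p :: l)) : A R) = b (p.1 + 1) * b 0 ^ p.2 * wd (word l) := by simp [mul_assoc]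

theorem wd_dual (p : ℕ × ℕ) (l : List (ℕ × ℕ)) :
    (wd (word (dual (p :: l))) : A R) = wd (word (dual l)) * (b (p.2 + 1) * b 0 ^ p.1) := by
  simp [dual_cons, word_append]

theorem T0_blk (a m : ℕ) : T0 (b (a + 1) * b 0 ^ m : A R) = b (m + 1) * b 0 ^ a := by
  rw [T0_b, TH_pow]

theorem der_pow0 {f : ℕ → A R} (h : f 0 = 0) (m : ℕ) : der f (b 0 ^ m) = 0 := by
  induction m with
  | zero => simp
  | succ m ih => simp [pow_succ, der_mul, ih, h]

/-! ### The operators attached to a polynomial in `b 0`, `b 1` -/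

def cf (ψ : A R) : ℕ → A R
  | 0 => ψ * b 0 - b 0 * ψ
  | _ + 1 => 0

def rf (ψ : A R) : ℕ → A R
  | 0 => 0
  | m + 1 => TH (ψ * b 0 ^ m - b 0 ^ m * ψ)

def cO (ψ : A R) : E R := der (cf ψ) - mulLeft R ψ
def rO (ψ : A R) : E R := der (rf ψ) - mulRight R (T0 ψ)

theorem der_cf (ψ : A R) (m : ℕ) : der (cf ψ) (b 0 ^ m) = ψ * b 0 ^ m - b 0 ^ m * ψ := by
  induction m with
  | zero => simp
  | succ m ih => simp only [pow_succ, der_mul, ih, der_b, cf]; noncomm_ring

theorem du_cr (ψ : A R) : Du (cO ψ) (rO ψ) := by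
  refine du_of (fun x => ?_) (fun x => ?_) fun l => ?_
  · convert J_b (der (cf ψ) x - ψ * x) using 1
    simp only [cO, LinearMap.sub_apply, der_mul, der_b, cf, mulLeft_apply]; noncomm_ring
  · convert J_b (rO ψ x) using 1
    simp [rO, der_mul, rf]; noncomm_ring
  · have : der (cf ψ) (wd (word l)) ∈ WW ∧
        T0 (der (cf ψ) (wd (word l))) = der (rf ψ) (wd (word (dual l))) := by
      induction l with
      | nil => simp
      | cons p l ih =>
        rw [wd_word, wd_dual]
        refine ⟨by simpa only [mul_assoc, der_mul, der_b, cf, zero_mul, zero_add] using W_b _ _, ?_⟩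
        simp only [der_mul, der_b, cf, rf, zero_mul, zero_add, map_add, T0_mul _ ih.1, ih.2,
          T0_mul _ (W_word l), T0_word, T0_blk, der_cf, T0_b, TH_pow, der_pow0 (f := rf ψ) rfl]
        noncomm_ring
    simp [cO, rO, this.2, T0_mul _ (W_word l), T0_word]

/-- The words without the letter `0`. -/
def ZF : Submodule R (A R) := Sp fun w => ∀ k ∈ w, k ≠ 0

theorem tl_zf {w : List ℕ} (h : ∀ k ∈ w, k ≤ 1) (i : ℕ) : ∀ k ∈ tl w i, k ≠ 0 := by
  induction w generalizing i with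
  | nil => simp [tl]
  | cons a w ih =>
    simp only [List.mem_cons, forall_eq_or_imp] at h
    obtain rfl | rfl : a = 0 ∨ a = 0 + 1 := by omega
    · exact ih h.2 _
    · simpa only [tl, List.replicate_zero, List.append_nil, List.mem_append, List.mem_cons, List.not_mem_nil, or_false, ne_eq, or_imp, forall_and, forall_eq, Nat.add_eq_zero_iff, one_ne_zero, and_false, not_false_eq_true, and_true] using ih h.2 0

theorem TH_zf {x : A R} (hx : x ∈ B01) : TH x ∈ ZF :=
  Sp_map TH _ (fun w hw => by rw [TH_wd]; exact Sp_wd (tl_zf hw 0)) hx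

theorem T0_zf {x : A R} (hx : x ∈ B01) : T0 x ∈ ZF :=
  Sp_map T0 _ (fun w hw => by
    cases w with
    | nil => simpa only [ZF, ne_eq, wd_nil, T0_one] using Sp_wd (R := R) (w := []) (by simp)
    | cons a w =>
      simp only [List.mem_cons, forall_eq_or_imp] at hw
      obtain rfl | rfl : a = 0 ∨ a = 0 + 1 := by omega
      · simp [T0_J (J_b _)]
      · simpa [T0_b] using TH_zf (R := R) (Sp_wd hw.2)) hx

theorem B01_b {k : ℕ} (h : k ≤ 1) : (b k : A R) ∈ B01 := by
  simpa only [B01, wd_cons, wd_nil, mul_one] using Sp_wd (R := R) (w := [k]) (p := fun w => ∀ k ∈ w, k ≤ 1) (by simpa)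

theorem B01_pow {k : ℕ} (h : k ≤ 1) (m : ℕ) : (b k ^ m : A R) ∈ B01 := by
  simpa only [B01, wd_replicate] using Sp_wd (R := R) (w := List.replicate m k) (p := fun w => ∀ k ∈ w, k ≤ 1)
    (by simp; omega)

theorem der_ext {D : E R} (h : ∀ x y, D (x * y) = D x * y + x * D y) (h0 : ∀ k, D (b k) = 0) : D = 0 :=
  LinearMap.ext fun x => tw_ext id rfl h (fun k _ => h0 k) (Sp_all x)

theorem comm_rc {ψ φ : A R} (hψ : ψ ∈ B01) (hφ : φ ∈ B01) : Commute (rO ψ) (cO φ) := by
  have e1 : ∀ x ∈ B01, der (rf ψ) x = 0 := fun x hx => der_zero (fun k hk => by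
    interval_cases k <;> simp [rf]) hx
  have e2 : ∀ x ∈ ZF, der (cf φ) x = 0 := fun x hx => der_zero (fun k hk => by
    cases k <;> simp_all [cf]) hx
  have e3 := der_ext (D := der (rf ψ) * der (cf φ) - der (cf φ) * der (rf ψ))
    (fun x y => by simp only [LinearMap.sub_apply, Module.End.mul_apply, der_mul, map_add]; noncomm_ring) fun k => by
      cases k with
      | zero => simpa only [LinearMap.sub_apply, Module.End.mul_apply, der_b, cf, rf, map_zero, sub_zero] using e1 _ (sub_mem (B01_mul hφ (B01_b zero_le_one))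
          (B01_mul (B01_b zero_le_one) hφ))
      | succ k => simpa only [LinearMap.sub_apply, Module.End.mul_apply, der_b, cf, map_zero, rf, zero_sub, neg_eq_zero] using e2 _ (TH_zf (sub_mem
          (B01_mul hψ (B01_pow zero_le_one k)) (B01_mul (B01_pow zero_le_one k) hψ)))
  refine LinearMap.ext fun x => ?_
  have := sub_eq_zero.1 (LinearMap.congr_fun e3 x)
  simp only [Module.End.mul_apply] at this
  simp [rO, cO, der_mul, e1 _ hφ, e2 _ (T0_zf hψ), this]; noncomm_ring

theorem der_add (f g : ℕ → A R) : der (f + g) = der f + der g :=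
  sub_eq_zero.1 (der_ext (fun x y => by simp only [LinearMap.sub_apply, der_mul, LinearMap.add_apply]; noncomm_ring) fun k => by simp)

theorem cO_add (ψ φ : A R) : cO (ψ + φ) = cO ψ + cO φ := by
  have : cf (ψ + φ) = cf ψ + cf φ := funext fun k => by cases k <;> simp [cf]; noncomm_ring
  refine LinearMap.ext fun x => ?_
  simp only [cO, this, der_add, LinearMap.sub_apply, LinearMap.add_apply, mulLeft_apply]; noncomm_ring

theorem rO_add (ψ φ : A R) : rO (ψ + φ) = rO ψ + rO φ := by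
  have : rf (ψ + φ) = rf ψ + rf φ := funext fun k => by
    cases k <;> simp only [rf, Pi.add_apply, add_zero, add_mul, mul_add, map_sub, map_add]; abel
  refine LinearMap.ext fun x => ?_
  simp only [rO, this, der_add, map_add, LinearMap.sub_apply, LinearMap.add_apply, mulRight_apply]; noncomm_ring

theorem TH_b (c : ℕ) (x : A R) : TH (b (c + 1) * x) = TH x * b 0 ^ c * b 1 := by
  have := TH_mul (b 0 ^ 0) (W_b c x)
  rwa [TH_pow, T0_b, pow_zero, one_mul] at this

theorem TH_y (n : ℕ) (x : A R) : TH (b 1 ^ n * x) = TH x * b 1 ^ n := by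
  induction n with
  | zero => simp
  | succ n ih => rw [pow_succ', mul_assoc, TH_b 0, ih]; simp [← pow_succ, ← pow_succ', mul_assoc]

theorem W_y (n : ℕ) : (b 1 ^ n : A R) ∈ WW := by
  cases n with
  | zero => exact W_one
  | succ n => rw [pow_succ']; exact W_b 0 _

theorem T0_y (n : ℕ) : T0 (b 1 ^ n : A R) = b 1 ^ n := by
  cases n with
  | zero => simp
  | succ n =>
    have := TH_y n (b 0 ^ 0 : A R)
    rw [TH_pow, pow_zero, mul_one] at this
    rw [pow_succ', T0_b 0, this]; simp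

theorem cO_y (c : R) (n : ℕ) : cO (c • b 1 ^ n : A R) = rO (c • b 1 ^ n) := by
  have := der_ext (D := cO (c • b 1 ^ n : A R) - rO (c • b 1 ^ n))
    (fun x y => by simp only [cO, rO, map_smul, T0_y, LinearMap.sub_apply, der_mul, mulLeft_apply, Algebra.smul_mul_assoc, mulRight_apply, Algebra.mul_smul_comm]; noncomm_ring) fun k => by
      cases k <;> simp only [cO, rO, map_smul, T0_y, LinearMap.sub_apply, der_b, cf, Algebra.smul_mul_assoc, Algebra.mul_smul_comm, mulLeft_apply, sub_sub_cancel_left, rf, mulRight_apply, zero_sub, sub_self, map_sub, TH_y, TH_pow, TH_mul _ (W_y n)]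
  exact sub_eq_zero.1 this

theorem cod_c {ψ : A R} (h : Prim ψ) : Cod (cO ψ) := by
  refine (cod_der fun k => ?_).sub (cod_left h)
  cases k with
  | zero => rw [prim_b0]; simpa [cf, Prim] using h.lie prim_b0
  | succ k =>
    have : ∀ i, der (cf ψ) (bb i) = 0 := fun i => by cases i <;> simp [cf]
    rw [← bb_succ, cop_bb]; simp [cf, this]

/-! ### Coderivations from primitive polynomials -/

def gf (K : ℕ) (z z' : ℕ → A R) : ℕ → A R
  | 0 => 0
  | n + 1 => ∑ l ∈ range (K + 1), (b (n + 1 + l) * z' l - z l * b (n + 1 + l))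

theorem sum_shift {V : Type} [AddCommGroup V] (j n : ℕ) (F : ℕ → ℕ → V) :
    ∑ p ∈ antidiagonal n, (if j ≤ p.1 then F (p.1 - j) p.2 else 0) =
      if j ≤ n then ∑ p ∈ antidiagonal (n - j), F p.1 p.2 else 0 := by
  induction j generalizing n with
  | zero => simp
  | succ j ih => cases n with
    | zero => simp only [HasAntidiagonal.antidiagonal_zero, Order.add_one_le_iff, sum_singleton, not_lt_zero, ↓ reduceIte, nonpos_iff_eq_zero, Nat.add_eq_zero_iff, one_ne_zero, and_false]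
    | succ n => simp only [Order.add_one_le_iff, Nat.sum_antidiagonal_succ, not_lt_zero, ↓ reduceIte, Order.lt_add_one_iff, Nat.reduceSubDiff, ih, zero_add, add_le_add_iff_right]

theorem sum_shift' {V : Type} [AddCommGroup V] (j n : ℕ) (F : ℕ → ℕ → V) :
    ∑ p ∈ antidiagonal n, (if j ≤ p.2 then F p.1 (p.2 - j) else 0) =
      if j ≤ n then ∑ p ∈ antidiagonal (n - j), F p.1 p.2 else 0 := by
  rw [← Finset.Nat.sum_antidiagonal_swap, ← Finset.Nat.sum_antidiagonal_swap (n := n - j)]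
  exact sum_shift j n fun i k => F k i

def gs (K : ℕ) (z z' : ℕ → A R) (n : ℕ) : A R := ∑ l ∈ range (K + 1),
  if K - l ≤ n then bb (n - (K - l)) * z' l - z l * bb (n - (K - l)) else 0

theorem cod_g {K : ℕ} {z z' : ℕ → A R} (hz : ∀ l ≤ K, Prim (z l)) (hz' : ∀ l ≤ K, Prim (z' l))
    (h : ∀ i ≤ K, gs K z z' i = 0) : Cod (der (gf K z z')) := by
  have e1 : ∀ n, cop 0 (gs K z z' n) =
      ∑ p ∈ antidiagonal n, (gs K z z' p.1 ⊗ₜ bb p.2 + bb p.1 ⊗ₜ gs K z z' p.2) := fun n => by
    simp only [gs, map_sum, sum_tmul, tmul_sum, ← sum_add_distrib]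
    rw [sum_comm]
    refine sum_congr rfl fun l hl => ?_
    have hl : l ≤ K := by simpa [Nat.lt_succ_iff] using hl
    simp only [ite_tmul, tmul_ite, sum_add_distrib]
    rw [sum_shift (K - l) n fun i j => (bb i * z' l - z l * bb i) ⊗ₜ[R] bb j,
      sum_shift' (K - l) n fun i j => bb i ⊗ₜ[R] (bb j * z' l - z l * bb j)]
    split_ifs
    · rw [map_sub, map_mul, map_mul, hz l hl, hz' l hl, cop_bb, sum_mul, mul_sum, ← sum_sub_distrib,
        ← sum_add_distrib]
      exact sum_congr rfl fun p _ => by simp only [mul_add, Algebra.TensorProduct.tmul_mul_tmul, mul_one, add_mul, one_mul, sub_tmul, tmul_sub]; abel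
    · simp
  have e2 : ∀ i, gs K z z' i = if K ≤ i then der (gf K z z') (bb (i - K)) else 0 := fun i => by
    split_ifs with hi
    · obtain ⟨n, rfl⟩ := Nat.exists_eq_add_of_le hi
      cases n with
      | zero => simpa using h K le_rfl
      | succ n =>
        rw [Nat.add_sub_cancel_left, bb_succ, der_b, gf, gs]
        refine sum_congr rfl fun l hl => ?_
        have hl : l ≤ K := by simpa [Nat.lt_succ_iff] using hl
        rw [if_pos (by omega), show K + (n + 1) - (K - l) = n + l + 1 by omega, bb_succ,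
          Nat.add_right_comm]
    · exact h i (by omega)
  refine cod_der fun k => ?_
  cases k with
  | zero => rw [prim_b0]; simp [gf]
  | succ k =>
    have := e1 (K + (k + 1))
    simp only [e2, ite_tmul, tmul_ite, sum_add_distrib] at this
    rw [sum_shift K _ fun i j => der (gf K z z') (bb i) ⊗ₜ[R] bb j,
      sum_shift' K _ fun i j => bb i ⊗ₜ[R] der (gf K z z') (bb j)] at this
    simp only [le_add_iff_nonneg_right, zero_le, if_true, Nat.add_sub_cancel_left, bb_succ, der_b] at this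
    rw [this, ← bb_succ, cop_bb]; simp only [map_sum, hat_tmul, sum_add_distrib]

theorem cod_r {K : ℕ} {ψ : A R} {p u : ℕ → A R} (hp : ∀ j ≤ K, p j ∈ WW)
    (e1 : ψ = ∑ j ∈ range (K + 1), b 0 ^ j * p j) (e2 : ψ = ∑ l ∈ range (K + 1), u l * (b 1 * b 0 ^ l))
    (h1 : ∀ j ≤ K, Prim (T0 (p j))) (h2 : ∀ l ≤ K, Prim (TH (u l)))
    (h : ∀ i ≤ K, gs K (fun j => T0 (p j)) (fun l => TH (u l)) i = 0) : Cod (rO ψ) := by
  have e : rf ψ = gf K (fun j => T0 (p j)) fun l => TH (u l) := funext fun k => by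
    cases k with
    | zero => rfl
    | succ m =>
      rw [rf, gf, map_sub, sum_sub_distrib]
      congr 1
      · rw [e2, sum_mul, map_sum]
        exact sum_congr rfl fun l _ => by
          rw [mul_assoc, mul_assoc, ← pow_add, TH_mul _ (W_b 0 _), T0_blk, pow_zero, mul_one]
          congr 2; omega
      · rw [e1, mul_sum, map_sum]
        exact sum_congr rfl fun l hl => by
          rw [← mul_assoc, ← pow_add, TH_mul _ (hp l (Nat.lt_succ_iff.1 (mem_range.1 hl))), TH_pow,
            Nat.add_right_comm]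
  have e' : T0 ψ = T0 (p 0) := by
    rw [e1, sum_range_succ', map_add, T0_J (sum_mem fun j _ => by rw [pow_succ', mul_assoc]; exact J_b _)]
    simp
  rw [rO, e, e']
  exact (cod_g h1 h2 h).sub (cod_right (h1 0 K.zero_le))

/-! ### Filtrations -/

def Fl (μ : ℕ → ℕ) (n : ℕ) : Submodule R (A R) := Sp fun w => n ≤ (w.map μ).sum

theorem Fl_mul {μ : ℕ → ℕ} {m n : ℕ} {x y : A R} (hx : x ∈ Fl μ m) (hy : y ∈ Fl μ n) :
    x * y ∈ Fl μ (m + n) := Sp_mul (fun u v hu hv => by simpa only [List.map_append, List.sum_append] using add_le_add hu hv) hx hy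

theorem Fl_mono {μ : ℕ → ℕ} {m n : ℕ} (h : m ≤ n) {x : A R} (hx : x ∈ Fl μ n) : x ∈ Fl μ m :=
  Sp_mono (fun _ => h.trans) hx

theorem Fl_zero (μ : ℕ → ℕ) (x : A R) : x ∈ Fl μ 0 := Sp_mono (by simp) (Sp_top x)

theorem Fl_wd (μ : ℕ → ℕ) (w : List ℕ) : (wd w : A R) ∈ Fl μ (w.map μ).sum := Sp_wd le_rfl

theorem Fl_b (μ : ℕ → ℕ) (k : ℕ) : (b k : A R) ∈ Fl μ (μ k) := by simpa using Fl_wd (R := R) μ [k]

def Up (μ : ℕ → ℕ) (k : ℕ) (s : E R) : Prop := ∀ n, ∀ x ∈ Fl μ n, s x ∈ Fl μ (n + k)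

theorem Up.mul {μ : ℕ → ℕ} {k l : ℕ} {s u : E R} (hs : Up μ k s) (hu : Up μ l u) :
    Up μ (l + k) (s * u) := fun n x hx => by rw [← add_assoc]; exact hs _ _ (hu n x hx)

theorem Up.sub {μ : ℕ → ℕ} {k : ℕ} {s u : E R} (hs : Up μ k s) (hu : Up μ k u) :
    Up μ k (s - u) := fun n x hx => sub_mem (hs n x hx) (hu n x hx)

theorem Up.lie {μ : ℕ → ℕ} {k l : ℕ} {s u : E R} (hs : Up μ k s) (hu : Up μ l u) :
    Up μ (k + l) ⁅s, u⁆ := Up.sub (add_comm l k ▸ hs.mul hu) (hu.mul hs)

theorem up_der {μ : ℕ → ℕ} {k : ℕ} {f : ℕ → A R} (h : ∀ a, f a ∈ Fl μ (μ a + k)) : Up μ k (der f) :=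
  fun n x hx => Sp_map (der f) _ (fun w hw => Fl_mono (Nat.add_le_add_right hw k) (by
    clear hw
    induction w with
    | nil => simp
    | cons a w ih =>
      rw [wd_cons, der_mul, der_b, List.map_cons, List.sum_cons]
      exact add_mem (Fl_mono (by omega) (Fl_mul (h a) (Fl_wd μ w)))
        (Fl_mono (by omega) (Fl_mul (Fl_b μ a) ih)))) hx

theorem up_left {μ : ℕ → ℕ} {k : ℕ} {p : A R} (h : p ∈ Fl μ k) : Up μ k (mulLeft R p) :=
  fun n _ hx => add_comm k n ▸ Fl_mul h hx

theorem up_right {μ : ℕ → ℕ} {k : ℕ} {p : A R} (h : p ∈ Fl μ k) : Up μ k (mulRight R p) :=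
  fun _ _ hx => Fl_mul hx h

theorem up_c {μ : ℕ → ℕ} {k : ℕ} {ψ : A R} (h : ψ ∈ Fl μ k) : Up μ k (cO ψ) :=
  (up_der fun a => by
    cases a with
    | zero => exact sub_mem (add_comm k _ ▸ Fl_mul h (Fl_b μ 0)) (Fl_mul (Fl_b μ 0) h)
    | succ a => exact zero_mem _).sub (up_left h)

/-- The depth of a letter. -/
def dp (k : ℕ) : ℕ := if k = 0 then 0 else 1

/-- The number of zeros of a letter. -/
def zc (k : ℕ) : ℕ := if k = 0 then 1 else 0

theorem dp_tl (w : List ℕ) (i : ℕ) : ((tl w i).map dp).sum = (w.map dp).sum + 1 := by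
  induction w generalizing i with
  | nil => simp [tl, dp]
  | cons a w ih => cases a <;> simp [tl, ih, dp]; omega

theorem TH_dp {n : ℕ} {x : A R} (h : x ∈ Fl dp n) : TH x ∈ Fl dp (1 + n) :=
  Sp_map TH _ (fun w hw => by rw [TH_wd]; exact Sp_wd (by rw [dp_tl]; omega)) h

theorem T0_dp {n : ℕ} {x : A R} (h : x ∈ Fl dp n) : T0 x ∈ Fl dp n :=
  Sp_map T0 _ (fun w hw => by
    rcases w with _ | ⟨_ | a, w⟩
    · rw [wd_nil, T0_one]; exact Sp_wd (w := []) hw
    · simp [T0_J (J_b _)]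
    · rw [wd_cons, T0_b]
      exact Fl_mono (by simpa only [add_zero, List.map_cons, dp, Nat.add_eq_zero_iff, one_ne_zero, and_false, ↓ reduceIte, List.sum_cons] using hw) (Fl_mul (TH_dp (Fl_wd dp w)) (Fl_zero _ _))) h

theorem up_r {k : ℕ} {ψ : A R} (h : ψ ∈ Fl dp k) : Up dp k (rO ψ) :=
  (up_der fun a => by
    cases a with
    | zero => exact zero_mem _
    | succ a =>
      exact TH_dp (n := k) (sub_mem (Fl_mul (n := 0) h (Fl_zero _ _))
        (Fl_mono (by omega) (Fl_mul (m := 0) (Fl_zero _ _) h)))).sub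
    (up_right (T0_dp h))

theorem up_z {f : ℕ → A R} (h : f 0 = 0) (p : A R) : Up zc 0 (der f - mulRight R p) :=
  (up_der fun a => by
    cases a with
    | zero => rw [h]; exact zero_mem _
    | succ a => exact Fl_zero _ _).sub (up_right (Fl_zero _ _))

/-- Leading parts for the depth. -/
def Ld (k : ℕ) (s s' : E R) : Prop := Up dp k s' ∧ Up dp (k + 1) (s - s')

theorem Ld.up {k : ℕ} {s s' : E R} (h : Ld k s s') : Up dp k s := fun n x hx => by
  simpa using add_mem (h.1 n x hx) (Fl_mono (by omega) (h.2 n x hx))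

theorem Ld.mul {k l : ℕ} {s s' u u' : E R} (h : Ld k s s') (g : Ld l u u') :
    Ld (l + k) (s * u) (s' * u') := ⟨h.1.mul g.1, fun n x hx => by
  convert add_mem (Fl_mono (m := n + (l + k + 1)) (by omega) (h.up _ _ (g.2 n x hx)))
    (Fl_mono (by omega) (h.2 _ _ (g.1 n x hx))) using 1
  simp⟩

theorem Ld.lie {k l : ℕ} {s s' u u' : E R} (h : Ld k s s') (g : Ld l u u') :
    Ld (k + l) ⁅s, u⁆ ⁅s', u'⁆ := ⟨h.1.lie g.1, by
  convert Up.sub (add_comm l k ▸ (h.mul g).2) (g.mul h).2 using 1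
  simp only [Ring.lie_def]; abel⟩

theorem ld_c {ψ φ : A R} (h : ψ ∈ Fl dp 1) (g : φ ∈ Fl dp 2) : Ld 1 (cO (ψ + φ)) (cO ψ) :=
  ⟨up_c h, by simpa [cO_add] using up_c g⟩

theorem ld_r {ψ φ : A R} (h : ψ ∈ Fl dp 1) (g : φ ∈ Fl dp 2) : Ld 1 (rO (ψ + φ)) (rO ψ) :=
  ⟨up_r h, by simpa [rO_add] using up_r g⟩

end

end Pool.Agent.MP_08482e_nt.H68

/-! Computing with explicit lists of terms. -/

namespace Pool.Agent.MP_08482e_nt.H68

open TensorProduct Finset LinearMap

abbrev LP (M : Type) : Type := List (ℤ × M)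
abbrev LW : Type := LP (List ℕ)

section
variable {M N : Type}

/-- A comparison whose value `eq` certifies equality. -/
class Cmp (M : Type) where
  cmp : M → M → Ordering
  sound : ∀ a c, cmp a c = .eq → a = c

def cmpL : List ℕ → List ℕ → Ordering
  | [], [] => .eq
  | [], _ :: _ => .lt
  | _ :: _, [] => .gt
  | a :: u, c :: v => bif Nat.beq a c then cmpL u v else bif Nat.ble a c then .lt else .gt

instance : Cmp (List ℕ) := ⟨cmpL, fun u v h => by
  fun_induction cmpL u v with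
  | case1 => rfl
  | case2 => cases h
  | case3 => cases h
  | case4 a u c v e ih => rw [ih h, Nat.eq_of_beq_eq_true e]
  | case5 => cases h
  | case6 => cases h⟩

instance [Cmp M] [Cmp N] : Cmp (M × N) :=
  ⟨fun s t => match Cmp.cmp s.1 t.1 with | .eq => Cmp.cmp s.2 t.2 | o => o, fun s t h => by
    cases e : Cmp.cmp s.1 t.1 <;> simp only [e, reduceCtorEq] at h
    exact Prod.ext (Cmp.sound _ _ e) (Cmp.sound _ _ h)⟩

def cns (c : ℤ) (m : M) (p : LP M) : LP M := match c with | .ofNat 0 => p | c => (c, m) :: p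

def mrg [Cmp M] : ℕ → LP M → LP M → LP M
  | 0, p, q => p ++ q
  | _ + 1, [], q => q
  | _ + 1, s :: p, [] => s :: p
  | n + 1, s :: p, t :: q => match Cmp.cmp s.2 t.2 with
    | .eq => cns (s.1 + t.1) s.2 (mrg n p q)
    | .lt => s :: mrg n p (t :: q)
    | .gt => t :: mrg n (s :: p) q

def pas [Cmp M] : List (LP M) → List (LP M)
  | p :: q :: l => mrg 9999 p q :: pas l
  | l => l

def nf [Cmp M] (p : LP M) : LP M := (pas^[12] (p.map fun t => cns t.1 t.2 [])).flatten

def mp (g : M → N) (p : LP M) : LP N := p.map fun t => (t.1, g t.2)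
def ng (p : LP M) : LP M := p.map fun t => (-t.1, t.2)
def bnd (g : M → LP N) (p : LP M) : LP N := p.flatMap fun t => (g t.2).map fun s => (t.1 * s.1, s.2)

variable {V W : Type} [AddCommGroup V] [AddCommGroup W]

def evg (e : M → V) (p : LP M) : V := (p.map fun t => t.1 • e t.2).sum

@[simp] theorem evg_nil (e : M → V) : evg e [] = 0 := rfl
@[simp] theorem evg_cons (e : M → V) (t : ℤ × M) (p : LP M) :
    evg e (t :: p) = t.1 • e t.2 + evg e p := by simp only [evg, List.map_cons, List.sum_cons]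
@[simp] theorem evg_append (e : M → V) (p q : LP M) : evg e (p ++ q) = evg e p + evg e q := by
  simp [evg]
@[simp] theorem evg_mp (e : N → V) (g : M → N) (p : LP M) : evg e (mp g p) = evg (fun m => e (g m)) p := by
  simp only [evg, mp, List.map_map, Function.comp_def]
@[simp] theorem evg_ng (e : M → V) (p : LP M) : evg e (ng p) = -evg e p := by
  induction p with
  | nil => simp [ng]
  | cons t p ih => rw [ng, List.map_cons, ← ng, evg_cons, evg_cons, ih]; simp only [neg_smul, neg_add_rev]; abel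

@[simp] theorem evg_cns (e : M → V) (c : ℤ) (m : M) (p : LP M) : evg e (cns c m p) = c • e m + evg e p := by
  unfold cns; split <;> simp only [Int.ofNat_eq_natCast, CharP.cast_eq_zero, zero_smul, zero_add, evg_cons]

@[simp] theorem evg_nf [Cmp M] (e : M → V) (p : LP M) : evg e (nf p) = evg e p := by
  have e1 : ∀ n (p q : LP M), evg e (mrg n p q) = evg e p + evg e q := fun n p q => by
    fun_induction mrg n p q with
    | case4 n s p t q h ih => simp only [Cmp.sound _ _ h, evg_cns, add_smul, ih, evg_cons]; abel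
    | case5 n s p t q h ih => simp only [evg_cons, ih]; abel
    | case6 n s p t q h ih => simp only [evg_cons, ih]; abel
    | _ => simp
  have e2 : ∀ l : List (LP M), evg e (pas l).flatten = evg e l.flatten := fun l => by
    fun_induction pas l with
    | case1 p q l ih => simp [ih, e1, add_assoc]
    | case2 => rfl
  have e3 : ∀ n (l : List (LP M)), evg e (pas^[n] l).flatten = evg e l.flatten := fun n => by
    induction n with
    | zero => exact fun _ => rfl
    | succ n ih => exact fun l => by rw [Function.iterate_succ_apply, ih, e2]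
  rw [nf, e3]
  induction p with
  | nil => rfl
  | cons t p ih => simp [ih]

theorem evg_eq [Cmp M] (e : M → V) {p q : LP M} (h : nf (p ++ ng q) = []) :
    evg e p = evg e q := by
  rw [← sub_eq_zero, sub_eq_add_neg, ← evg_ng, ← evg_append, ← evg_nf, h, evg_nil]

@[simp] theorem evg_bnd (e : N → V) (g : M → LP N) (p : LP M) :
    evg e (bnd g p) = evg (fun m => evg e (g m)) p := by
  have : ∀ (c : ℤ) (q : LP N), evg e (q.map fun s => (c * s.1, s.2)) = c • evg e q := fun c q => by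
    induction q with
    | nil => simp
    | cons s q ih => simp only [List.map_cons, evg_cons, mul_smul, ih, smul_add]
  induction p with
  | nil => rfl
  | cons t p ih => rw [bnd, List.flatMap_cons, ← bnd, evg_append, ih, this, evg_cons]

theorem map_evg {F : Type} [FunLike F V W] [AddMonoidHomClass F V W] (L : F) (e : M → V) (p : LP M) :
    L (evg e p) = evg (fun m => L (e m)) p := by
  induction p with
  | nil => simp
  | cons t p ih => simp only [evg_cons, map_add, map_zsmul, ih]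

theorem evg_range (e : M → V) (g : ℕ → LP M) (n : ℕ) :
    evg e ((List.range n).flatMap g) = ∑ i ∈ range n, evg e (g i) := by
  induction n with
  | zero => rfl
  | succ n ih => simp [List.range_succ, sum_range_succ, ih]

end

def mulL (p q : LW) : LW := bnd (fun u => mp (u ++ ·) q) p

def derL (f : ℕ → LW) : List ℕ → LW
  | [] => []
  | a :: w => mp (· ++ w) (f a) ++ mp (a :: ·) (derL f w)

def THL (p : LW) : LW := mp (tl · 0) p
def T0L (p : LW) : LW := bnd (fun w => if w.head? = some 0 then [] else [(1, tw w)]) p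

def copB (k : ℕ) : LP (List ℕ × List ℕ) := [(1, ([k], [])), (1, ([], [k]))] ++
  (List.range (k + 1)).flatMap fun i => if i = 0 ∨ k - i = 0 then [] else [(1, ([i], [k - i]))]

def copL : List ℕ → LP (List ℕ × List ℕ)
  | [] => [(1, ([], []))]
  | k :: w => bnd (fun s => mp (fun t => (s.1 ++ t.1, s.2 ++ t.2)) (copL w)) (copB k)

def primL (p : LW) : Prop := nf (bnd copL p ++ ng (mp (·, []) p ++ mp ([], ·) p)) = []

instance (p : LW) : Decidable (primL p) := by unfold primL; infer_instance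

def cfL (ψ : LW) : ℕ → LW
  | 0 => nf (mp (· ++ [0]) ψ ++ ng (mp (0 :: ·) ψ))
  | _ + 1 => []

def rfL (ψ : LW) : ℕ → LW
  | 0 => []
  | m + 1 => nf (THL (mp (· ++ List.replicate m 0) ψ ++ ng (mp (List.replicate m 0 ++ ·) ψ)))

def cL (ψ p : LW) : LW := bnd (derL (cfL ψ)) p ++ ng (mulL ψ p)
def rL (ψ p : LW) : LW := bnd (derL (rfL ψ)) p ++ ng (mulL p (T0L ψ))

def pL (ψ : LW) (j : ℕ) : LW :=
  bnd (fun w => if (w.takeWhile (· = 0)).length = j then [(1, w.drop j)] else []) ψ
def uL (ψ : LW) (j : ℕ) : LW := bnd (fun w =>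
  if (w.reverse.takeWhile (· = 0)).length = j then [(1, w.take (w.length - j - 1))] else []) ψ

def gsL (K : ℕ) (z z' : ℕ → LW) (n : ℕ) : LW := (List.range (K + 1)).flatMap fun l =>
  if K - l ≤ n then mp ((if n - (K - l) = 0 then [] else [n - (K - l)]) ++ ·) (z' l) ++
    ng (mp (· ++ if n - (K - l) = 0 then [] else [n - (K - l)]) (z l)) else []

def okL (K : ℕ) (ψ : LW) : Prop :=
  nf (ψ ++ ng ((List.range (K + 1)).flatMap fun j => mp (List.replicate j 0 ++ ·) (pL ψ j))) = [] ∧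
  nf (ψ ++ ng ((List.range (K + 1)).flatMap fun j => mp (· ++ 1 :: List.replicate j 0) (uL ψ j))) = [] ∧
  ∀ j ≤ K, primL (T0L (pL ψ j)) ∧ primL (THL (uL ψ j)) ∧
    nf (gsL K (fun j => T0L (pL ψ j)) (fun l => THL (uL ψ l)) j) = [] ∧
    ∀ t ∈ pL ψ j, t.2.head? ≠ some 0

instance (K : ℕ) (ψ : LW) : Decidable (okL K ψ) := by unfold okL; infer_instance

noncomputable section

variable {R : Type} [CommRing R]

abbrev ev (p : LW) : A R := evg wd p

theorem ev_left (x : A R) (p : LW) : x * ev p = evg (fun w => x * wd w) p :=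
  map_evg (mulLeft R x) _ _

theorem ev_right (x : A R) (p : LW) : ev p * x = evg (fun w => wd w * x) p :=
  map_evg (mulRight R x) _ _

theorem ev_mul (p q : LW) : (ev (mulL p q) : A R) = ev p * ev q := by
  rw [ev_right]; simp [mulL, ev_left]

theorem ev_der {f : ℕ → A R} {g : ℕ → LW} (h : ∀ k, f k = ev (g k)) (p : LW) :
    ev (bnd (derL g) p) = der f (ev p) := by
  rw [map_evg, ev, evg_bnd]
  congr 1; funext w
  induction w with
  | nil => simp [derL]
  | cons a w ih => simp [derL, der_mul, h, ← ih, ev_left, ev_right]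

theorem ev_TH (p : LW) : (ev (THL p) : A R) = TH (ev p) := by simp [THL, map_evg, TH_wd]

theorem ev_T0 (p : LW) : (ev (T0L p) : A R) = T0 (ev p) := by
  rw [map_evg, ev, T0L, evg_bnd]
  congr 1; funext w
  rw [T0, lin_wd]; split_ifs <;> simp

theorem ev_Sp {q : List ℕ → Prop} {p : LW} (h : ∀ t ∈ p, q t.2) : (ev p : A R) ∈ Sp q := by
  induction p with
  | nil => exact zero_mem _
  | cons t p ih =>
    simp only [List.mem_cons, forall_eq_or_imp] at h
    exact add_mem (zsmul_mem (Sp_wd h.1) _) (ih h.2)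

theorem ev_co (w : List ℕ) (p : LW) :
    co w (ev p : A R) = (evg (fun v => if v = w then 1 else 0) p : ℤ) := by
  rw [map_evg, ← eq_intCast (Int.castRingHom R), map_evg]; simp [co_wd]

theorem cop_wd (w : List ℕ) :
    cop 0 (wd w : A R) = evg (fun s => wd s.1 ⊗ₜ wd s.2) (copL w) := by
  induction w with
  | nil => simp [copL, Algebra.TensorProduct.one_def]
  | cons k w ih =>
    have : cop 0 (b k : A R) = evg (fun s => wd s.1 ⊗ₜ wd s.2) (copB k) := by
      rw [cop_b, copB, evg_append, evg_range, Finset.Nat.sum_antidiagonal_eq_sum_range_succ_mk]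
      simp only [evg_cons, evg_nil, cc]
      congr 1
      · simp
      · exact sum_congr rfl fun i _ => by split_ifs <;> simp
    rw [wd_cons, map_mul, ih, this, copL, evg_bnd, ← mulRight_apply R, map_evg]
    congr 1; funext s
    rw [mulRight_apply, ← mulLeft_apply R, map_evg]; simp

theorem ev_prim {p : LW} (h : primL p) : Prim (ev p : A R) := by
  have := evg_eq (fun s => (wd s.1 ⊗ₜ wd s.2 : A R ⊗[R] A R)) h
  rw [Prim, map_evg]
  simp only [cop_wd]
  rw [← evg_bnd, this, ← mk_apply, ← mk_apply, ← flip_apply (TensorProduct.mk R _ _), map_evg, map_evg]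
  simp only [evg_append, evg_mp, wd_nil, flip_apply, mk_apply]

theorem ev_c (ψ p : LW) : (ev (cL ψ p) : A R) = cO (ev ψ) (ev p) := by
  rw [cL, ev, evg_append, evg_ng, ← ev, ← ev, ev_mul, ev_der (f := cf (ev ψ)) fun k => by
    cases k <;> simp [cf, cfL, ev_left, ev_right, sub_eq_add_neg]]
  simp [cO, sub_eq_add_neg]

theorem ev_r (ψ p : LW) : (ev (rL ψ p) : A R) = rO (ev ψ) (ev p) := by
  rw [rL, ev, evg_append, evg_ng, ← ev, ← ev, ev_mul, ev_T0, ev_der (f := rf (ev ψ)) fun k => by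
    cases k <;> simp only [rf, rfL, evg_nil, ev_right, ev_left, sub_eq_add_neg, map_add, map_neg, evg_nf, ev_TH, evg_append, evg_mp, wd_append, wd_replicate, evg_ng]]
  simp [rO, sub_eq_add_neg]

theorem ev_gs (K : ℕ) (z z' : ℕ → LW) (n : ℕ) :
    (ev (gsL K z z' n) : A R) = gs K (fun j => ev (z j)) (fun j => ev (z' j)) n := by
  rw [gsL, ev, evg_range, gs]
  refine sum_congr rfl fun l _ => ?_
  split_ifs with h h' <;> simp [bb, *, ev_left, ev_right, sub_eq_add_neg]

theorem ev_cod {K : ℕ} {ψ : LW} (h : okL K ψ) : Cod (rO (ev ψ : A R)) := by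
  refine cod_r (K := K) (p := fun j => ev (pL ψ j)) (u := fun j => ev (uL ψ j)) (fun j hj => ?_) ?_ ?_
    (fun j hj => ?_) (fun j hj => ?_) fun j hj => ?_
  · exact ev_Sp fun t ht => (parse' t.2).resolve_right fun ⟨v, e⟩ => (h.2.2 j hj).2.2.2 t ht (by simp [e])
  · rw [ev, evg_eq _ h.1, evg_range]; simp [ev_left]
  · rw [ev, evg_eq _ h.2.1, evg_range]; simp [ev_right]
  · rw [← ev_T0]; exact ev_prim (h.2.2 j hj).1
  · rw [← ev_TH]; exact ev_prim (h.2.2 j hj).2.1
  · simp only [← ev_T0, ← ev_TH]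
    rw [← ev_gs, ev, ← evg_nf, (h.2.2 j hj).2.2.1, evg_nil]

end

end Pool.Agent.MP_08482e_nt.H68

/-! A primitive self-dual element of weight 18 supported on words that contain the letter `0`. -/

namespace Pool.Agent.MP_08482e_nt.H68

open TensorProduct Finset LinearMap

def a3 : LW := [(3, [0, 0, 1]), (-6, [0, 1, 0]), (3, [1, 0, 0])]
def d3 : LW := [(3, [0, 1, 1]), (-6, [1, 0, 1]), (3, [1, 1, 0])]
def y3 : LW := [(1, [1, 1, 1])]
def a5 : LW := [(10, [0, 0, 0, 0, 1]), (-40, [0, 0, 0, 1, 0]), (60, [0, 0, 1, 0, 0]),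
  (-40, [0, 1, 0, 0, 0]), (10, [1, 0, 0, 0, 0])]
def d5 : LW := [(20, [0, 0, 0, 1, 1]), (-55, [0, 0, 1, 0, 1]), (-5, [0, 0, 1, 1, 0]),
  (20, [0, 0, 1, 1, 1]), (45, [0, 1, 0, 0, 1]), (20, [0, 1, 0, 1, 0]), (-55, [0, 1, 0, 1, 1]),
  (-5, [0, 1, 1, 0, 0]), (45, [0, 1, 1, 0, 1]), (-30, [0, 1, 1, 1, 0]), (10, [0, 1, 1, 1, 1]),
  (-30, [1, 0, 0, 0, 1]), (45, [1, 0, 0, 1, 0]), (-5, [1, 0, 0, 1, 1]), (-55, [1, 0, 1, 0, 0]),
  (20, [1, 0, 1, 0, 1]), (45, [1, 0, 1, 1, 0]), (-40, [1, 0, 1, 1, 1]), (20, [1, 1, 0, 0, 0]),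
  (-5, [1, 1, 0, 0, 1]), (-55, [1, 1, 0, 1, 0]), (60, [1, 1, 0, 1, 1]), (20, [1, 1, 1, 0, 0]),
  (-40, [1, 1, 1, 0, 1]), (10, [1, 1, 1, 1, 0])]
def y5 : LW := [(2, [1, 1, 1, 1, 1])]

def zL : ℕ → LW
  | 0 => [(2, [2]), (-1, [1, 1]), (2, [1, 0]), (-2, [0, 1])]
  | _ + 1 => [(4, [0]), (-2, [1])]

def zL' : ℕ → LW
  | 0 => [(2, [2]), (-1, [1, 1]), (-2, [1, 0]), (2, [0, 1])]
  | _ + 1 => [(4, [0]), (-2, [1])]

def f0L : ℕ → LW
  | 0 => []
  | n + 1 => [(4, [n + 2, 0]), (-4, [0, n + 2])]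

def f1L : ℕ → LW
  | 0 => []
  | n + 1 => [(2, [n + 1, 2]), (-1, [n + 1, 1, 1]), (-2, [n + 1, 1, 0]), (2, [n + 1, 0, 1]),
      (-2, [2, n + 1]), (1, [1, 1, n + 1]), (-2, [1, 0, n + 1]), (2, [0, 1, n + 1]),
      (-2, [n + 2, 1]), (2, [1, n + 2])]

def fj (p : LW) : LW := nf (p.filter fun t => match t.2 with | 0 :: _ => false | _ => true)
def lieL (s u : LW → LW) (p : LW) : LW := s (fj (u p)) ++ ng (u (fj (s p)))
def l0 : List (ℕ × ℕ) := [(0, 6), (0, 0), (1, 0), (6, 1)]
def etL : LW :=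
  lieL (lieL (bnd (derL f0L)) (lieL (rL a3) (rL a5))) (lieL (cL a3) (cL a5)) [(1, [])]

theorem etL_co : nf (etL.filter fun t => cmpL t.2 (word l0) == .eq) = [(14400, word l0)] := by
  decide +kernel

theorem ok3 : primL (a3 ++ d3) ∧ okL 2 (a3 ++ (d3 ++ y3)) := by decide +kernel
theorem ok5 : primL (a5 ++ d5) := by decide +kernel
theorem ok5' : okL 4 (a5 ++ (d5 ++ y5)) := by decide +kernel
theorem okz : (∀ l ≤ 1, primL (zL l)) ∧ (∀ l ≤ 1, primL (zL' l)) ∧ ∀ i ≤ 1, nf (gsL 1 zL zL' i) = [] := by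
  decide +kernel

noncomputable section

variable {R : Type} [CommRing R]

def d0 : E R := der fun k => ev (f0L k)
def d1 : E R := der (fun k => ev (f1L k)) - mulRight R (ev (zL 0))
def fd : ℕ → A R := (fun k => ev (f0L k)) + fun k => ev (f1L k)
def dO : E R := der fd - mulRight R (ev (zL 0))

theorem dO_eq : (dO : E R) = d0 + d1 := by rw [dO, fd, der_add, d0, d1, add_sub_assoc]

theorem fd_eq : (fd : ℕ → A R) = gf 1 (fun j => ev (zL j)) fun j => ev (zL' j) := funext fun k => by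
  cases k <;> simp only [fd, f0L, Int.reduceNeg, f1L, Pi.add_apply, evg_nil, add_zero, gf, evg_cons, wd_cons, wd_nil, mul_one, neg_smul, one_smul, add_assoc, Nat.reduceAdd, zL', zL, sum_sub_distrib, sum_range_succ, range_one, sum_singleton, mul_add, mul_smul_comm, mul_neg, add_mul, smul_mul_assoc, neg_mul, mul_assoc]; abel

theorem cod_d : Cod (dO : E R) := by
  rw [dO, fd_eq]
  exact (cod_g (fun l hl => ev_prim (okz.1 l hl)) (fun l hl => ev_prim (okz.2.1 l hl)) fun i hi => by
    rw [← ev_gs, ev, ← evg_nf, okz.2.2 i hi, evg_nil]).sub (cod_right (ev_prim (okz.1 0 zero_le_one)))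

theorem ld_d : Ld 0 (dO : E R) d0 :=
  ⟨up_der fun a => ev_Sp (by cases a <;> simp only [f0L, List.not_mem_nil, dp, ↓ reduceIte, add_zero, zero_le, implies_true, Int.reduceNeg, List.mem_cons, or_false, Nat.add_eq_zero_iff, one_ne_zero, and_false, forall_eq_or_imp, List.map_cons, OfNat.ofNat_ne_zero, List.map_nil, List.sum_cons, List.sum_nil, Std.le_refl, forall_eq, zero_add, and_self]), by
    rw [dO_eq, add_sub_cancel_left]
    exact (up_der fun a => ev_Sp (by cases a <;> simp only [f1L, List.not_mem_nil, dp, ↓ reduceIte, zero_add, IsEmpty.forall_iff, implies_true, Int.reduceNeg, List.mem_cons, or_false, Nat.add_eq_zero_iff, one_ne_zero, and_false, Nat.reduceAdd, forall_eq_or_imp, List.map_cons, OfNat.ofNat_ne_zero, List.map_nil, List.sum_cons, List.sum_nil, add_zero, Std.le_refl, Nat.reduceLeDiff, forall_eq, and_self])).sub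
      (up_right (ev_Sp (by simp only [zL, Int.reduceNeg, List.mem_cons, List.not_mem_nil, or_false, zero_add, forall_eq_or_imp, List.map_cons, dp, OfNat.ofNat_ne_zero, ↓ reduceIte, List.map_nil, List.sum_cons, List.sum_nil, add_zero, Std.le_refl, one_ne_zero, Nat.reduceAdd, Nat.one_le_ofNat, forall_eq, and_self])))⟩

theorem fd_zero : (fd 0 : A R) = 0 := by simp [fd, f0L, f1L]

theorem dO_b (k : ℕ) (x : A R) : dO (b k * x) = fd k * x + b k * dO x := by
  simp only [dO, LinearMap.sub_apply, der_mul, der_b, mulRight_apply]; noncomm_ring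

theorem TH_pb (i c : ℕ) (x : A R) : TH (b 0 ^ i * (b (c + 1) * x)) = TH x * b 0 ^ c * b (i + 1) := by
  rw [TH_mul _ (W_b c x), T0_b, TH_pow]

theorem T0_fd (a m : ℕ) : T0 (fd (a + 1) * b 0 ^ m : A R) = b (m + 2) * ev (zL 1) * b 0 ^ a +
    b (m + 1) * ev (zL' 0) * b 0 ^ a - b (m + 1) * b 0 ^ a * ev (zL 0) := by
  have e1 := fun x : A R => T0_b 0 x
  have e2 := fun x : A R => T0_b 1 x
  have e3 := fun x : A R => TH_b 0 x
  have e4 := fun x : A R => TH_b 1 x
  have e5 := fun c (x : A R) => TH_pb 1 c x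
  have e6 := fun x : A R => TH_pb 1 0 x
  have e7 : TH (b 0 * b 0 ^ m : A R) = b (m + 2) := by rw [← pow_succ', TH_pow]
  have e8 : ∀ x : A R, b 0 ^ a * (b 0 * x) = b 0 * (b 0 ^ a * x) := fun x => by
    rw [← mul_assoc, ← mul_assoc, ← pow_succ, pow_succ']
  simp only [zero_add, pow_zero, pow_one, mul_one, one_add_one_eq_two] at e1 e2 e3 e4 e5 e6
  simp only [fd, f0L, Int.reduceNeg, f1L, Pi.add_apply, evg_cons, wd_cons, wd_nil, mul_one, neg_smul, evg_nil, add_zero, one_smul, add_mul, smul_mul_assoc, mul_assoc, neg_mul, map_add, map_smul_of_tower, T0_b (a + 1), e7, pow_succ', map_neg, T0_J (J_b _), smul_zero, neg_zero, T0_b a, e4, TH_pow, e3, e5, pow_zero, e2, TH_b a, e1, TH_b (a + 1), zero_add, zL, mul_add, mul_smul_comm, mul_neg, zL', e8]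
  abel

theorem du_d : Du (dO : E R) dO := by
  have hJ : ∀ x : A R, dO (b 0 * x) ∈ JJ := fun x => by rw [dO_b, fd_zero]; simpa using J_b _
  have t1 : T0 (b 1 : A R) = b 1 := by simpa using T0_y (R := R) 1
  have e : ∀ l, ∃ z' ∈ WW, dO (wd (word l) : A R) - b 0 * z' ∈ WW ∧
      T0 z' + wd (word (dual l)) * ev (zL 1) ∈ JJ := fun l => by
    cases l with
    | nil =>
      refine ⟨(2 : ℤ) • b 1, zsmul_mem (by simpa using W_y (R := R) 1) _, ?_, ?_⟩
      · convert add_mem (zsmul_mem (W_b 1 (1 : A R)) (-2)) (W_b 0 (b 1 - (2 : ℤ) • b 0)) using 1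
        simp only [dO, zL, Int.reduceNeg, evg_cons, wd_cons, wd_nil, mul_one, neg_smul, one_smul, evg_nil, add_zero, word_nil, LinearMap.sub_apply, der_one, mulRight_apply, one_mul, zero_sub, neg_add_rev, neg_neg, mul_smul_comm, Nat.reduceAdd, zero_add, mul_sub]; abel
      · convert zsmul_mem (J_b (1 : A R)) 4 using 1
        simp [zL, t1, -zsmul_eq_mul]
    | cons p l =>
      refine ⟨(2 : ℤ) • (b (0 + 1) * wd (word (p :: l))) -
        (4 : ℤ) • (b (p.1 + 1 + 1) * (b 0 ^ p.2 * wd (word l))),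
        sub_mem (zsmul_mem (W_b _ _) _) (zsmul_mem (W_b _ _) _), ?_, ?_⟩
      · rw [wd_word, mul_assoc, dO_b, add_sub_right_comm]
        refine add_mem ?_ (W_b _ _)
        generalize b 0 ^ p.2 * (wd (word l) : A R) = y
        convert add_mem (add_mem (W_b (p.1 + 1) (ev (zL 1) * y)) (W_b p.1 (ev (zL' 0) * y))) (add_mem
          (W_b 1 ((-2 : ℤ) • (b (p.1 + 1) * y))) (W_b 0 (b 1 * (b (p.1 + 1) * y) -
            (2 : ℤ) • (b 0 * (b (p.1 + 1) * y)) + (2 : ℤ) • (b (p.1 + 2) * y)))) using 1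
        simp only [fd, f0L, Int.reduceNeg, f1L, Pi.add_apply, evg_cons, wd_cons, wd_nil, mul_one, neg_smul, evg_nil, add_zero, one_smul, add_mul, smul_mul_assoc, mul_assoc, neg_mul, zero_add, add_assoc p.1, Nat.reduceAdd, mul_sub, mul_smul_comm, zL, mul_add, mul_neg, zL']
        abel
      · convert zero_mem JJ
        rw [map_sub, map_zsmul, map_zsmul, T0_mul _ (W_word _), T0_word, T0_b (p.1 + 1),
          TH_mul _ (W_word _), T0_word, TH_pow, zero_add, t1, wd_dual]
        simp only [mul_assoc, pow_succ, zL, Int.reduceNeg, evg_cons, wd_cons, wd_nil, mul_one, neg_smul, evg_nil, add_zero, mul_add, mul_smul_comm, mul_neg]; abel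
  refine du_of hJ hJ fun l => ?_
  induction l with
  | nil =>
    convert zsmul_mem (J_b (b 1 : A R)) (-2) using 1
    rw [dO, LinearMap.sub_apply, map_sub, mulRight_apply, word_nil, wd_nil, one_mul, ← ev_T0]
    simp only [der_one, map_zero, T0L, bnd, tw, zL, Int.reduceNeg, List.flatMap_cons, List.head?_cons, Option.some.injEq, OfNat.ofNat_ne_zero, ↓ reduceIte, tl, zero_add, List.replicate_one, List.cons_append, List.nil_append, List.map_cons, mul_one, List.map_nil, neg_mul, one_mul, one_ne_zero, List.replicate_zero, List.append_nil, Nat.reduceAdd, List.flatMap_nil, evg_cons, wd_cons, wd_nil, neg_smul, one_smul, evg_nil, add_zero, zero_sub, neg_add_rev, neg_neg, dual_nil, word_nil, LinearMap.sub_apply, mulRight_apply]; abel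
  | cons p l ih =>
    obtain ⟨z', h1, h2, h3⟩ := e l
    have h4 := T0_mul (b (p.1 + 1) * b 0 ^ p.2) h2
    have h5 := T0_mul (b (p.1 + 1) * b 0 ^ (p.2 + 1)) h1
    rw [T0_blk] at h4 h5
    have h6 : dO (wd (word (p :: l)) : A R) = fd (p.1 + 1) * b 0 ^ p.2 * wd (word l) +
        b (p.1 + 1) * b 0 ^ p.2 * (dO (wd (word l)) - b 0 * z') + b (p.1 + 1) * b 0 ^ (p.2 + 1) * z' := by
      rw [wd_word]; simp only [dO, LinearMap.sub_apply, der_mul, der_b, der_pow0 fd_zero, mul_zero, add_zero, mulRight_apply, pow_succ]; noncomm_ring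
    have h7 : (fd (p.2 + 1) : A R) = b (p.2 + 1) * ev (zL' 0) - ev (zL 0) * b (p.2 + 1) +
        (b (p.2 + 2) * ev (zL 1) - ev (zL 1) * b (p.2 + 2)) := by
      rw [fd_eq, gf, sum_range_succ, sum_range_one]; rfl
    rw [h6, map_add, map_add, h4, h5, T0_mul _ (W_word l), T0_word, T0_fd, wd_dual, map_sub,
      T0_J (J_b _)]
    convert add_mem (J_mul ih (b (p.2 + 1) * b 0 ^ p.1)) (J_mul h3 (b (p.2 + 2) * b 0 ^ p.1)) using 1
    generalize T0 (dO (wd (word l) : A R)) = y
    simp only [dO, LinearMap.sub_apply, mulRight_apply, der_mul, der_pow0 fd_zero, der_b, h7]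
    noncomm_ring

theorem ev_fj (p : LW) : (ev p : A R) - ev (fj p) ∈ JJ := by
  rw [fj, ev, ev, evg_nf]
  induction p with
  | nil => simp
  | cons t p ih =>
    rcases t with ⟨c, _ | ⟨_ | k, w⟩⟩
    · simpa only [evg_cons, wd_nil, zsmul_eq_mul, mul_one, List.filter_cons_of_pos, add_sub_add_left_eq_sub] using ih
    · simpa only [evg_cons, wd_cons, Bool.false_eq_true, not_false_eq_true, List.filter_cons_of_neg, add_sub_assoc] using add_mem (zsmul_mem (J_b (wd w)) c) ih
    · simpa only [evg_cons, wd_cons, zsmul_eq_mul, List.filter_cons_of_pos, add_sub_add_left_eq_sub] using ih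

def Snd (s : E R) (g : LW → LW) : Prop := ∀ x p, x - ev p ∈ JJ → s x - ev (g p) ∈ JJ

theorem snd_of {s : E R} {g : LW → LW} (h : ∀ x ∈ JJ, s x ∈ JJ) (e : ∀ p, ev (g p) = s (ev p)) :
    Snd s g := fun x p hx => by rw [e, ← map_sub]; exact h _ hx

theorem Snd.lie {s u : E R} {g k : LW → LW} (hs : Snd s g) (hu : Snd u k) : Snd ⁅s, u⁆ (lieL g k) :=
  fun x p hx => by
    have h1 := add_mem (hu x p hx) (ev_fj (k p))
    have h2 := add_mem (hs x p hx) (ev_fj (g p))
    rw [sub_add_sub_cancel] at h1 h2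
    convert sub_mem (hs _ _ h1) (hu _ _ h2) using 1
    simp only [lieL, Ring.lie_def, ev, evg_append, evg_ng, LinearMap.sub_apply, Module.End.mul_apply]
    abel

theorem ev_filter (w : List ℕ) (p : LW) :
    co w (ev p : A R) = co w (ev (p.filter fun t => cmpL t.2 w == .eq) : A R) := by
  have : ∀ w, cmpL w w = .eq := fun w => by induction w <;> simp [cmpL, *]
  induction p with
  | nil => rfl
  | cons t p ih =>
    rw [List.filter_cons]; split_ifs with h
    · simp only [evg_cons, zsmul_eq_mul, map_add, ih]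
    · simp [ih, co_wd, show t.2 ≠ w by rintro rfl; simp [this] at h, -zsmul_eq_mul]

theorem lie_cc {ψ φ x y : A R} (hψ : ψ ∈ B01) (hφ : φ ∈ B01) (hx : x ∈ B01) (hy : y ∈ B01)
    (tx : cO x = rO x) (ty : cO y = rO y) : ⁅cO (ψ + x), cO (φ + y)⁆ = ⁅cO ψ, cO φ⁆ := by
  have h1 := (comm_rc hx (add_mem hφ hy)).eq
  have h2 := (comm_rc hy hψ).eq
  rw [← tx, cO_add] at h1
  rw [← ty] at h2
  rw [cO_add, cO_add, Ring.lie_def, Ring.lie_def, add_mul, h1, mul_add (cO ψ), ← h2]; noncomm_ring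

theorem jac {ψ φ : A R} (hψ : ψ ∈ B01) (hφ : φ ∈ B01) (d : E R) :
    ⁅⁅d, ⁅cO ψ, cO φ⁆⁆, ⁅rO ψ, rO φ⁆⁆ = ⁅⁅d, ⁅rO ψ, rO φ⁆⁆, ⁅cO ψ, cO φ⁆⁆ := by
  have : ∀ {x}, x ∈ B01 → Commute ⁅rO ψ, rO φ⁆ (cO x) := fun hx =>
    ((comm_rc hψ hx).mul_left (comm_rc hφ hx)).sub_left ((comm_rc hφ hx).mul_left (comm_rc hψ hx))
  have h : Commute ⁅rO ψ, rO φ⁆ ⁅cO ψ, cO φ⁆ :=
    ((this hψ).mul_right (this hφ)).sub_right ((this hφ).mul_right (this hψ))
  generalize ⁅rO ψ, rO φ⁆ = r at *
  generalize ⁅cO ψ, cO φ⁆ = c at *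
  simp only [Ring.lie_def, sub_mul, mul_sub, mul_assoc, h.eq]
  simp only [← mul_assoc, h.eq]; abel

theorem eta (R : Type) [CommRing R] : ∃ η : A R, Prim η ∧ T0 η - η ∈ JJ ∧ η ∈ Sp (0 ∈ ·) ∧
    co (word l0) η = 14400 := by
  have b3 : (ev (a3 ++ d3) : A R) ∈ B01 := ev_Sp (by decide)
  have b5 : (ev (a5 ++ d5) : A R) ∈ B01 := ev_Sp (by decide)
  have c3 : (ev y3 : A R) ∈ B01 := ev_Sp (by decide)
  have c5 : (ev y5 : A R) ∈ B01 := ev_Sp (by decide)
  have t3 : cO (ev y3 : A R) = rO (ev y3) := by simpa [y3, pow_succ, mul_assoc] using cO_y (1 : R) 3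
  have t5 : cO (ev y5 : A R) = rO (ev y5) := by
    convert cO_y (2 : R) 5 <;> simp only [y5, evg_cons, wd_cons, wd_nil, mul_one, two_smul, evg_nil, add_zero, pow_succ, pow_zero, one_mul, mul_assoc]
  have eC := lie_cc b3 b5 c3 c5 t3 t5
  have g3 := ev_cod (R := R) ok3.2
  have g5 := ev_cod (R := R) ok5'
  have e3 : (ev (a3 ++ d3) : A R) + ev y3 = ev a3 + ev (d3 ++ y3) := by simp [add_assoc]
  have e5 : (ev (a5 ++ d5) : A R) + ev y5 = ev a5 + ev (d5 ++ y5) := by simp [add_assoc]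
  have u3 : (ev a3 : A R) ∈ Fl dp 1 := ev_Sp (by decide)
  have u5 : (ev a5 : A R) ∈ Fl dp 1 := ev_Sp (by decide)
  have v3 : (ev (d3 ++ y3) : A R) ∈ Fl dp 2 := ev_Sp (by decide)
  have v5 : (ev (d5 ++ y5) : A R) ∈ Fl dp 2 := ev_Sp (by decide)
  have z3 : (ev (a3 ++ d3) : A R) ∈ Fl zc 1 := ev_Sp (by decide)
  have hL := (ld_d.lie ((ld_r u3 v3).lie (ld_r u5 v5))).lie ((ld_c u3 v3).lie (ld_c u5 v5))
  rw [← e3, ← e5] at hL
  rw [← List.append_assoc, ev, evg_append, ← ev, ← ev] at g3 g5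
  have bψ := add_mem b3 c3
  have bφ := add_mem b5 c5
  generalize (ev (a3 ++ d3) : A R) + ev y3 = ψ at *
  generalize (ev (a5 ++ d5) : A R) + ev y5 = φ at *
  have dC := (du_cr ψ).lie (du_cr φ)
  refine ⟨⁅⁅(dO : E R), ⁅rO ψ, rO φ⁆⁆, ⁅cO ψ, cO φ⁆⁆ 1, Cod.prim ?_, ?_, ?_, ?_⟩
  · refine (cod_d.lie (g3.lie g5)).lie ?_
    rw [eC]; exact (cod_c (ev_prim ok3.1)).lie (cod_c (ev_prim ok5))
  · have := ((du_d.lie dC.symm).lie dC).2.2 1
    rwa [T0_one, jac bψ bφ] at this
  · have := ((up_z fd_zero (ev (zL 0))).lie ((up_z (f := rf ψ) rfl (T0 ψ)).lie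
      (up_z (f := rf φ) rfl (T0 φ)))).lie ((up_c z3).lie (up_c (Fl_zero zc (ev (a5 ++ d5))))) 0 1
      (Fl_zero _ _)
    rw [← eC] at this
    refine Sp_mono (fun w hw => by_contra fun h => ?_) this
    rw [List.sum_eq_zero fun k hk => ?_] at hw
    · omega
    · obtain ⟨j, hj, rfl⟩ := List.mem_map.1 hk
      exact if_neg (by rintro rfl; exact h hj)
  · have h1 := co_Sp (w := word l0) (by decide) (hL.2 0 1 (Fl_zero _ _))
    have h2 := co_J (((snd_of (s := d0) (g := bnd (derL f0L)) (fun _ => Sp_map d0 _ (by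
        rintro _ ⟨v, rfl⟩; simpa [d0, der_mul, f0L] using J_b _)) (ev_der fun _ => rfl)).lie
      ((snd_of (du_cr _).2.1 (ev_r a3)).lie (snd_of (du_cr _).2.1 (ev_r a5)))).lie
      ((snd_of (du_cr _).1 (ev_c a3)).lie (snd_of (du_cr _).1 (ev_c a5))) (1 : A R) [(1, [])]
      (by simp)) l0
    rw [LinearMap.sub_apply, map_sub, sub_eq_zero] at h1
    rw [map_sub, sub_eq_zero, ← etL] at h2
    rw [h1, h2, ev_filter, ev, ← evg_nf, etL_co]; simp [co_wd, -zsmul_eq_mul]

end

end Pool.Agent.MP_08482e_nt.H68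

/-! Transport of the primitive element to the deformed coproduct. -/

namespace Pool.Agent.MP_08482e_nt.H68

open TensorProduct Finset LinearMap Polynomial

noncomputable section

variable {R : Type} [CommRing R]

/-- Congruence modulo `θ`. -/
def Cg {V : Type} [AddCommGroup V] [Module R V] (θ : R) (x y : V) : Prop := ∃ z, x = y + θ • z

theorem Cg.rfl {V : Type} [AddCommGroup V] [Module R V] {θ : R} {x : V} : Cg θ x x := ⟨0, by simp⟩

theorem Cg.map {V W F : Type} [AddCommGroup V] [Module R V] [AddCommGroup W] [Module R W]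
    [FunLike F V W] [LinearMapClass F R V W] (L : F) {θ : R} {x y : V} (h : Cg θ x y) :
    Cg θ (L x) (L y) := by
  obtain ⟨z, rfl⟩ := h
  exact ⟨L z, by simp⟩

theorem Cg.mul {B : Type} [Ring B] [Algebra R B] {θ : R} {x y x' y' : B} (h : Cg θ x y)
    (k : Cg θ x' y') : Cg θ (x * x') (y * y') := by
  obtain ⟨z, rfl⟩ := h
  obtain ⟨z', rfl⟩ := k
  exact ⟨z * y' + y * z' + θ • (z * z'), by simp only [mul_add, add_mul, Algebra.smul_mul_assoc, Algebra.mul_smul_comm, smul_add]; abel⟩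

theorem Cg.pow {B : Type} [Ring B] [Algebra R B] {θ : R} {x y : B} (h : Cg θ x y) (n : ℕ) :
    Cg θ (x ^ n) (y ^ n) := by
  induction n with
  | zero => simpa using Cg.rfl
  | succ n ih => simpa [pow_succ] using ih.mul h

theorem aeval_conj {B : Type} [Ring B] [Algebra R B] {x y u : B} (h : x * y = 1) (h' : y * x = 1)
    (p : R[X]) : aeval (x * u * y) p = x * aeval u p * y := by
  induction p using Polynomial.induction_on with
  | C c => simp [← Algebra.commutes, mul_assoc, h]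
  | add p q a c => simp only [map_add, a, c, mul_add, add_mul]
  | monomial n c ih =>
    rw [pow_succ, ← mul_assoc, map_mul, map_mul (aeval u), ih, aeval_X, aeval_X]
    simp only [mul_assoc]; rw [← mul_assoc y x, h', one_mul]

theorem aeval_mem {B : Type} [Ring B] [Algebra R B] (u : B) (S : Submodule R B) (h : ∀ n, u ^ n ∈ S)
    (p : R[X]) : aeval u p ∈ S := by
  rw [aeval_eq_sum_range]; exact sum_mem fun i _ => S.smul_mem _ (h i)

theorem TH_parse (m : ℕ) (l : List (ℕ × ℕ)) :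
    TH (wd (List.replicate m 0 ++ word l) : A R) = wd (word (dual l)) * b (m + 1) := by
  rw [wd_append, wd_replicate, TH_mul _ (W_word l), T0_word, TH_pow]

theorem TH_W (u x : A R) : TH u * x ∈ WW :=
  map_all (mulRight R x ∘ₗ TH) _ (fun w => by
    obtain ⟨m, l, rfl⟩ := parse w
    rw [LinearMap.comp_apply, TH_parse, mulRight_apply, mul_assoc]
    exact W_mul (W_word _) (W_b _ _)) u

theorem T0_TH (u v : A R) : T0 (TH u * v) = TH v * u :=
  lin_ext' (f := T0 ∘ₗ mulRight R v ∘ₗ TH) (g := mulLeft R (TH v)) (fun w => by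
    obtain ⟨m, l, rfl⟩ := parse w
    simp only [LinearMap.comp_apply, TH_parse, mulRight_apply, mulLeft_apply, mul_assoc]
    rw [T0_mul _ (W_b _ _), T0_word, T0_b]; simp [mul_assoc]) u

theorem W_ae (f : R[X]) : aeval (b 1 : A R) f ∈ WW := aeval_mem _ _ W_y f

theorem T0_ae (f : R[X]) : T0 (aeval (b 1 : A R) f) = aeval (b 1) f := by
  simp [aeval_eq_sum_range, T0_y]

theorem TH_ae (f : R[X]) (x : A R) : TH (aeval (b 1 : A R) f * x) = TH x * aeval (b 1) f := by
  simp only [aeval_eq_sum_range, sum_mul, Algebra.smul_mul_assoc, map_sum, map_smul, TH_y, mul_sum, Algebra.mul_smul_comm]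

theorem Z_mul {x : A R} (hx : x ∈ Sp (0 ∈ ·)) (y z : A R) : y * x * z ∈ Sp (0 ∈ ·) := by
  have : y * x ∈ Sp (0 ∈ ·) := Sp_mul (fun u v _ h => List.mem_append_right u h) (Sp_top y) hx
  exact Sp_mul (fun u v h _ => List.mem_append_left v h) this (Sp_top z)

variable [Algebra ℚ R]

theorem xi_der {h : R} {N : ℕ} (hN : h ^ N = 0) : derivative (xi h N) = 1 + C h * xi h N := by
  have : ∀ n, derivative (xi h n) + C (h ^ n * algebraMap ℚ R (Nat.factorial n : ℚ)⁻¹) * X ^ n =
      1 + C h * xi h n := fun n => by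
    induction n with
    | zero => rw [xi, sum_range_zero]; simp only [derivative_zero, pow_zero, Nat.factorial_zero, Nat.cast_one, inv_one, map_one, mul_one, zero_add, mul_zero, add_zero]
    | succ n ih =>
      have e : algebraMap ℚ R (Nat.factorial (n + 1) : ℚ)⁻¹ * ((n + 1 : ℕ) : R) =
          algebraMap ℚ R (Nat.factorial n : ℚ)⁻¹ := by
        rw [← map_natCast (algebraMap ℚ R), ← map_mul, Nat.factorial_succ]
        congr 1; push_cast; field_simp
      rw [xi, sum_range_succ, ← xi, map_add, derivative_C_mul_X_pow, mul_assoc, e, mul_add, ← add_assoc,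
        ← ih, ← mul_assoc, ← C_mul, ← mul_assoc, ← pow_succ']
      rfl
  simpa only [hN, zero_mul, map_zero, add_zero] using this N

theorem xi_mem {h : R} {N : ℕ} {u : A R} (S : Submodule R (A R)) (hS : ∀ i, u ^ (i + 1) ∈ S) :
    aeval u (xi h N) ∈ S := by
  rw [xi, map_sum]
  exact sum_mem fun i _ => by
    rw [map_mul, aeval_C, map_pow, aeval_X, ← Algebra.smul_def]; exact S.smul_mem _ (hS i)

theorem xi_add {h : R} {N : ℕ} (hN : h ^ N = 0) {S : Type} [CommRing S] [Algebra R S] (u v : S) :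
    aeval (u + v) (xi h N) = aeval u (xi h N) + aeval v (xi h N) +
      h • (aeval u (xi h N) * aeval v (xi h N)) := by
  set Ξ := (xi h N).map (algebraMap R S) with hΞ
  have d : derivative Ξ = 1 + C (algebraMap R S h) * Ξ := by
    rw [hΞ, derivative_map, xi_der hN]; simp
  set P := Ξ.comp (C u + X) - (C (Ξ.eval u) + Ξ + C (algebraMap R S h) * (C (Ξ.eval u) * Ξ)) with hP
  have dP : derivative P = C (algebraMap R S h) * P := by
    rw [hP]; simp only [derivative_sub, derivative_comp, derivative_add, derivative_C, derivative_X, zero_add, d, Polynomial.add_comp, one_comp, mul_comp, C_comp, one_mul, derivative_mul, zero_mul]; ring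
  have : P = 0 := Polynomial.ext fun n => by
    induction n with
    | zero =>
      have : Ξ.eval 0 = 0 := by
        rw [hΞ, xi, Polynomial.map_sum, eval_finsetSum]
        exact sum_eq_zero fun i _ => by
          rw [Polynomial.map_mul, eval_mul, Polynomial.map_pow, map_X, eval_pow, eval_X,
            zero_pow i.succ_ne_zero, mul_zero]
      simp [coeff_zero_eq_eval_zero, hP, eval_comp, this]
    | succ n ih =>
      have := congrArg (coeff · n) dP
      simp only [coeff_derivative, coeff_C_mul, ih, coeff_zero, mul_zero] at this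
      refine (IsUnit.mul_left_eq_zero ?_).1 this
      simpa only [RingHom.coe_comp, Function.comp_apply, map_add, map_natCast, map_one] using (IsUnit.mk0 ((n : ℚ) + 1) (by positivity)).map ((algebraMap R S).comp (algebraMap ℚ R))
  have := congrArg (eval v) this
  simpa [hP, eval_comp, hΞ, eval_map_algebraMap, sub_eq_zero, Algebra.smul_def] using this

theorem xi_cop {h : R} {N : ℕ} (hN : h ^ N = 0) {u : A R} (hu : Prim u) :
    cop 0 (aeval u (xi h N)) = aeval u (xi h N) ⊗ₜ 1 + 1 ⊗ₜ aeval u (xi h N) +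
      h • (aeval u (xi h N) ⊗ₜ aeval u (xi h N)) := by
  have := congrArg (Algebra.TensorProduct.map (aeval u) (aeval u))
    (xi_add hN (X ⊗ₜ 1 : R[X] ⊗[R] R[X]) (1 ⊗ₜ X))
  simp only [map_add, map_smul, map_mul, ← aeval_algHom_apply, Algebra.TensorProduct.map_tmul, aeval_X,
    map_one] at this
  rw [← aeval_algHom_apply, hu, this, ← Algebra.TensorProduct.includeLeft_apply (S := R),
    ← Algebra.TensorProduct.includeRight_apply, aeval_algHom_apply, aeval_algHom_apply]
  simp

theorem theta {θ h : R} {N : ℕ} (hN : h ^ (N + 1) = 0) (hh : θ ∣ h) {Y : A R} {f g : R[X]}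
    (hY : Y ∈ B01) (gY : Grp Y) (h1 : co [] Y = 1) (hy : Cg θ Y 1) (hf : Cg θ f 1) (hg : Cg θ g 1)
    (gf : Grp (aeval (b 1) f * T0 Y)) (hD : ∀ k, cop 0 (Dt h (N + 1) Y f g k) =
      ∑ p ∈ antidiagonal k, Dt h (N + 1) Y f g p.1 ⊗ₜ Dt h (N + 1) Y f g p.2) :
    ∃ Θ : E R, (∀ x, cop 0 (Θ x) = TensorProduct.map Θ Θ (cop h x)) ∧ Du Θ Θ ∧
      (∀ x ∈ Sp (0 ∈ ·), Θ x ∈ Sp (0 ∈ ·)) ∧ Cg θ Θ 1 := by
  obtain ⟨i1, i2⟩ := ap_grp hY gY h1
  have gA := gY.inv i2 i1
  set U := ap Y * b 0 * Y with hU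
  have pU : Prim U := by
    rw [Prim, hU, map_mul, map_mul, gA, gY, prim_b0]; simp [mul_add, add_mul, i1]
  set x := aeval U (xi h (N + 1)) with hx
  set e := 1 + h • x with he
  have px := xi_cop hN pU
  rw [← hx] at px
  have ge : Grp e := by
    rw [Grp, he, map_add, map_smul, px]
    simp only [map_one, Algebra.TensorProduct.one_def, smul_tmul', smul_add, tmul_add, add_tmul, tmul_smul]; abel
  have hu : ∀ m, e * x ^ m = uu h (N + 1) Y m := fun m => by
    rw [uu, ← aeval_conj i1 i2, al]; simp [he, hx, hU, Algebra.smul_def]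
  set φ : A R →ₐ[R] A R := hom fun k => if k = 0 then x else Dt h (N + 1) Y f g k * e with hφ
  have φ0 : φ (b 0) = x := by simp [hφ]
  have φ1 : ∀ k, φ (b (k + 1)) = Dt h (N + 1) Y f g (k + 1) * e := fun k => by simp [hφ]
  have hc : (cop 0).comp φ = (Algebra.TensorProduct.map φ φ).comp (cop h) := hom_ext fun k => by
    cases k with
    | zero => simp [φ0, px, cop_b, cc]
    | succ k =>
      have := sum_cc h k (fun i j => φ (b i) ⊗ₜ[R] φ (b j))
        (fun i j => (Dt h (N + 1) Y f g i * e) ⊗ₜ (Dt h (N + 1) Y f g j * e)) fun i j => by rw [φ1, φ1]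
      simp only [AlgHom.comp_apply, φ1, map_mul, hD, cop_b, map_add, map_sum, map_smul,
        Algebra.TensorProduct.map_tmul, map_one, sum_mul]
      rw [ge]
      simp only [Algebra.TensorProduct.tmul_mul_tmul]
      rw [φ0, φ1, show Dt h (N + 1) Y f g 0 = 1 from rfl, one_mul] at this
      rw [eq_sub_of_add_eq (eq_sub_of_add_eq this)]
      generalize Dt h (N + 1) Y f g (k + 1) * e = y
      simp only [he, add_tmul, tmul_add, tmul_smul, smul_tmul']; abel
  set F := aeval (b 1) f * T0 Y with hF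
  have FW : F ∈ WW := W_mul (W_ae f) (T0_mem Y)
  refine ⟨mulLeft R Y ∘ₗ mulRight R F ∘ₗ φ.toLinearMap, fun z => ?_, ?_, fun z hz => ?_, ?_⟩
  · have := DFunLike.congr_fun hc z
    simp only [AlgHom.comp_apply] at this
    simp only [LinearMap.comp_apply, mulLeft_apply, mulRight_apply, AlgHom.toLinearMap_apply, map_mul,
      this]
    rw [gY, gf]
    induction cop h z with
    | zero => simp
    | add x y a c => rw [map_add, add_mul, mul_add, a, c, map_add]
    | tmul x y => simp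
  · have hJ : ∀ z, (mulLeft R Y ∘ₗ mulRight R F ∘ₗ φ.toLinearMap) (b 0 * z) ∈ JJ := fun z => by
      simp only [LinearMap.comp_apply, mulLeft_apply, mulRight_apply, AlgHom.toLinearMap_apply, map_mul,
        φ0, hx, hU, aeval_conj i1 i2, ← mul_assoc, i2, one_mul]
      exact J_mul (J_mul (J_mul (xi_mem _ fun i => by rw [pow_succ']; exact J_b _) _) _) _
    refine du_of hJ hJ fun l => ?_
    have blk : ∀ a m, φ (b (a + 1) * b 0 ^ m) = aeval (b 1) f *
        (TH (uu h (N + 1) Y a) * (aeval (b 1) g * uu h (N + 1) Y m)) := fun a m => by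
      rw [map_mul, map_pow, φ0, φ1, mul_assoc, hu, Dt]; simp only [mul_assoc]
    have : φ (wd (word l)) ∈ WW ∧ aeval (b 1) f * T0 (φ (wd (word l))) =
        φ (wd (word (dual l))) * aeval (b 1) f := by
      induction l with
      | nil => simp [W_one]
      | cons p l ih =>
        rw [wd_word, wd_dual, map_mul, map_mul φ (wd _), blk, blk]
        refine ⟨W_mul (W_mul (W_ae f) (TH_W _ _)) ih.1, ?_⟩
        rw [T0_mul _ ih.1, T0_mul _ (TH_W _ _), T0_TH, TH_ae, T0_ae, ← mul_assoc, ih.2]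
        simp only [mul_assoc]
    simp only [LinearMap.comp_apply, mulLeft_apply, mulRight_apply, AlgHom.toLinearMap_apply]
    rw [T0_mul _ (W_mul this.1 FW), T0_mul _ FW, hF, T0_mul _ (T0_mem Y), T0_ae, mul_assoc (T0 _), this.2]
    convert J_mul (T0_T0 Y) (φ (wd (word (dual l))) * (aeval (b 1) f * T0 Y)) using 1
    noncomm_ring
  · refine Sp_map _ _ (fun w hw => ?_) hz
    obtain ⟨u, v, rfl⟩ := List.append_of_mem hw
    have : aeval (b 0 : A R) (xi h (N + 1)) ∈ Sp (0 ∈ ·) :=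
      xi_mem _ fun i => by rw [← wd_replicate]; exact Sp_wd (by simp)
    rw [hU, aeval_conj i1 i2] at hx
    simpa [φ0, hx, mul_assoc] using Z_mul this (Y * φ (wd u) * ap Y) (Y * φ (wd v) * F)
  · obtain ⟨c, rfl⟩ := hh
    have c1 : Cg θ (xi (θ * c) (N + 1)) X := ⟨∑ i ∈ range N, C (c * (θ * c) ^ i *
        algebraMap ℚ R (Nat.factorial (i + 1 + 1) : ℚ)⁻¹) * X ^ (i + 1 + 1), by
      rw [xi, sum_range_succ', smul_sum, add_comm]
      congr 1
      · simp only [pow_zero, zero_add, Nat.factorial_one, Nat.cast_one, inv_one, map_one, mul_one, pow_one, one_mul]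
      · exact sum_congr rfl fun i _ => by rw [smul_eq_C_mul, ← mul_assoc, ← C_mul]; congr 2; ring⟩
    have c2 : Cg θ (ap Y) 1 := by simpa using hy.map ap
    have c3 : ∀ p q : R[X], Cg θ p q → Cg θ (ap Y * aeval (b 0) p * Y) (aeval (b 0) q) := fun p q h => by
      simpa using (c2.mul (h.map (aeval (b 0)))).mul hy
    have c4 : Cg θ x (b 0) := by simpa [hx, hU, aeval_conj i1 i2] using c3 _ _ c1
    have c5 : Cg θ e 1 := ⟨c • x, by rw [he, mul_smul]⟩
    have c6 : ∀ k, Cg θ (φ (b k)) (b k) := fun k => by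
      cases k with
      | zero => rwa [φ0]
      | succ k =>
        have := (((hf.map (aeval (b 1 : A R))).mul ((c5.mul (c4.pow k)).map TH)).mul
          (hg.map (aeval (b 1 : A R)))).mul c5
        rw [hu] at this
        simpa [φ1, Dt, TH_pow] using this
    have c7 : ∀ w, Cg θ (φ (wd w)) (wd w) := fun w => by
      induction w with
      | nil => simpa using Cg.rfl
      | cons k w ih => simpa using (c6 k).mul ih
    choose z hz using fun w => hy.mul ((c7 w).mul ((hf.map (aeval (b 1 : A R))).mul (hy.map T0)))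
    exact ⟨lin z, lin_ext fun w => by simpa only [coe_comp, AlgHom.coe_toLinearMap, Function.comp_apply, mulRight_apply, mulLeft_apply, LinearMap.add_apply, Module.End.one_apply, LinearMap.smul_apply, lin_wd, map_one, T0_one, mul_one, one_mul] using hz w⟩

omit [Algebra ℚ R] in
theorem eta_h {θ h : R} (hθ : IsNilpotent θ) {Θ : E R}
    (h1 : ∀ x, cop 0 (Θ x) = TensorProduct.map Θ Θ (cop h x)) (h2 : Du Θ Θ)
    (h3 : ∀ x ∈ Sp (0 ∈ ·), Θ x ∈ Sp (0 ∈ ·)) (h4 : Cg θ Θ 1) :
    ∃ η γ : A R, cop h η = η ⊗ₜ γ + γ ⊗ₜ η ∧ T0 η - η ∈ JJ ∧ T0 γ - γ ∈ JJ ∧ η ∈ Sp (0 ∈ ·) ∧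
      Cg θ (co (word l0) η) 14400 := by
  obtain ⟨η, p1, p2, p3, p4⟩ := eta R
  obtain ⟨M, hM⟩ := h4
  obtain ⟨n, hn⟩ := hθ
  have e : (1 - Θ) ^ n = 0 := by
    rw [hM, sub_add_cancel_left, ← smul_neg, _root_.smul_pow, hn, zero_smul]
  have i1 := mul_neg_geom_sum (1 - Θ) n
  have i2 := geom_sum_mul_neg (1 - Θ) n
  have st : ∀ S : Submodule R (A R), (∀ x ∈ S, Θ x ∈ S) → ∀ x ∈ S,
      (∑ i ∈ range n, (1 - Θ) ^ i) x ∈ S := fun S hS x hx => by
    rw [LinearMap.sum_apply]
    refine sum_mem fun i hi => ?_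
    clear hi
    induction i with
    | zero => simpa
    | succ i ih => rw [pow_succ']; exact sub_mem ih (hS _ ih)
  generalize ∑ i ∈ range n, (1 - Θ) ^ i = P at *
  rw [e, sub_zero, sub_sub_cancel] at i1 i2
  replace i1 : ∀ x, Θ (P x) = x := LinearMap.congr_fun i1
  have dd : ∀ x, T0 x - x ∈ JJ → T0 (P x) - P x ∈ JJ := fun x hx => by
    have := st _ h2.1 _ (sub_mem hx (h2.2.2 (P x)))
    rw [i1, sub_sub_sub_cancel_left, map_sub, ← Module.End.mul_apply, i2] at this
    exact this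
  refine ⟨P η, P 1, ?_, dd _ p2, dd _ (by simp), st _ h3 _ p3, ⟨-co (word l0) (M (P η)), ?_⟩⟩
  · have := congrArg (TensorProduct.map P P) (h1 (P η))
    rw [i1, p1, ← LinearMap.comp_apply, ← TensorProduct.map_comp, ← Module.End.mul_eq_comp, i2] at this
    simpa only [Module.End.one_eq_id, TensorProduct.map_id, id_coe, id_eq, map_add, map_tmul] using this.symm
  · rw [← p4]; nth_rw 2 [← i1 η]; simp [hM]

end

end Pool.Agent.MP_08482e_nt.H68
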